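import Pool.Agent.MPd14747.Basic

/-! Definable ordinal arithmetic and a pairing function on ordinals. -/

open FirstOrder ZFSet

universe u

namespace Pool.Agent.MPd14747

variable {M : Set ZFSet.{u}}

noncomputable def addG (p h : ZFSet.{u}) : ZFSet.{u} := p ∪ ran h

theorem recF_addG (a b : Ordinal.{u}) : recF addG a.toZFSet b = (a + b).toZFSet := by
  induction b using WellFoundedLT.induction with
  | _ b ih =>
    rw [recF_eq]
    ext z
    simp only [addG, mem_union, mem_ran, Ordinal.mem_toZFSet_iff]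
    constructor
    · rintro (⟨c, hc, rfl⟩ | ⟨x, hx⟩)
      · exact ⟨c, hc.trans_le le_self_add, rfl⟩
      · obtain ⟨c, hc, e⟩ := (mem_recH addG).1 hx
        obtain ⟨_, rfl⟩ := pair_inj.1 e
        rw [ih c hc]
        exact ⟨_, (add_lt_add_iff_left a).2 hc, rfl⟩
    · rintro ⟨d, hd, rfl⟩
      rcases lt_or_ge d a with h | h
      · exact Or.inl ⟨d, h, rfl⟩
      · right
        obtain ⟨c, rfl⟩ := exists_add_of_le h
        have hc : c < b := (add_lt_add_iff_left a).1 hd
        exact ⟨c.toZFSet, (pair_mem_recH addG).2 ⟨hc, (ih c hc).symm⟩⟩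

noncomputable def ordAdd (x y : ZFSet.{u}) : ZFSet.{u} := recT addG x y

@[simp] theorem ordAdd_toZFSet (a b : Ordinal.{u}) :
    ordAdd a.toZFSet b.toZFSet = (a + b).toZFSet := by
  rw [ordAdd, recT_toZFSet, recF_addG]

noncomputable def mulG (p h : ZFSet.{u}) : ZFSet.{u} :=
  sUnion (img (ran h) (fun y => ordAdd y p))

theorem recF_mulG (a b : Ordinal.{u}) : recF mulG a.toZFSet b = (a * b).toZFSet := by
  induction b using WellFoundedLT.induction with
  | _ b ih =>
    rw [recF_eq]
    ext z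
    simp only [mulG, mem_sUnion, mem_img, mem_ran, Ordinal.mem_toZFSet_iff]
    constructor
    · rintro ⟨w, ⟨y, ⟨x, hx⟩, rfl⟩, hz⟩
      obtain ⟨c, hc, e⟩ := (mem_recH mulG).1 hx
      obtain ⟨_, rfl⟩ := pair_inj.1 e
      rw [ih c hc, ordAdd_toZFSet, Ordinal.mem_toZFSet_iff] at hz
      obtain ⟨d, hd, rfl⟩ := hz
      refine ⟨d, hd.trans_le ?_, rfl⟩
      rw [← mul_add_one]
      exact mul_le_mul_right (Order.add_one_le_of_lt hc) _
    · rintro ⟨d, hd, rfl⟩
      have ha : a ≠ 0 := by rintro rfl; simp at hd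
      have hc : d / a < b := (Ordinal.lt_mul_iff_div_lt ha).1 hd
      refine ⟨_, ⟨_, ⟨(d / a).toZFSet, (pair_mem_recH mulG).2 ⟨hc, rfl⟩⟩, rfl⟩, ?_⟩
      rw [ih _ hc, ordAdd_toZFSet, Ordinal.toZFSet_mem_toZFSet_iff, ← mul_add_one]
      exact Ordinal.lt_mul_succ_div d ha

noncomputable def ordMul (x y : ZFSet.{u}) : ZFSet.{u} := recT mulG x y

@[simp] theorem ordMul_toZFSet (a b : Ordinal.{u}) :
    ordMul a.toZFSet b.toZFSet = (a * b).toZFSet := by
  rw [ordMul, recT_toZFSet, recF_mulG]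

/-- pairing function on ordinals -/
noncomputable def opr (a b : Ordinal.{u}) : Ordinal.{u} := (a + b) * (a + b) + a

noncomputable def opair (x y : ZFSet.{u}) : ZFSet.{u} :=
  ordAdd (ordMul (ordAdd x y) (ordAdd x y)) x

@[simp] theorem opair_toZFSet (a b : Ordinal.{u}) :
    opair a.toZFSet b.toZFSet = (opr a b).toZFSet := by
  simp [opair, opr]

theorem sq_le_opr (a b : Ordinal.{u}) : (a + b) * (a + b) ≤ opr a b := le_self_add

theorem opr_lt_sq (a b : Ordinal.{u}) : opr a b < (a + b + 1) * (a + b + 1) := by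
  rw [opr, mul_add_one]
  have h1 : (a + b) * (a + b) ≤ (a + b + 1) * (a + b) := mul_le_mul_left le_self_add _
  have h2 : a < a + b + 1 := lt_of_le_of_lt le_self_add (Order.lt_add_one_iff.2 le_rfl)
  calc (a + b) * (a + b) + a < (a + b) * (a + b) + (a + b + 1) := by
        exact (add_lt_add_iff_left _).2 h2
    _ ≤ (a + b + 1) * (a + b) + (a + b + 1) := by gcongr

theorem opr_inj {a b c d : Ordinal.{u}} (h : opr a b = opr c d) : a = c ∧ b = d := by
  have hs : a + b = c + d := by
    rcases lt_trichotomy (a + b) (c + d) with hlt | heq | hgt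
    · exfalso
      have h1 := opr_lt_sq a b
      have h2 : (a + b + 1) * (a + b + 1) ≤ (c + d) * (c + d) :=
        mul_le_mul' (Order.add_one_le_of_lt hlt) (Order.add_one_le_of_lt hlt)
      exact absurd h (ne_of_lt (h1.trans_le (h2.trans (sq_le_opr c d))))
    · exact heq
    · exfalso
      have h1 := opr_lt_sq c d
      have h2 : (c + d + 1) * (c + d + 1) ≤ (a + b) * (a + b) :=
        mul_le_mul' (Order.add_one_le_of_lt hgt) (Order.add_one_le_of_lt hgt)
      exact absurd h.symm (ne_of_lt (h1.trans_le (h2.trans (sq_le_opr a b))))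
  have ha : a = c := by
    rw [opr, opr, hs] at h
    exact add_left_cancel h
  subst ha
  exact ⟨rfl, add_left_cancel hs⟩

theorem left_le_opr (a b : Ordinal.{u}) : a ≤ opr a b := le_add_self

theorem self_le_sq (s : Ordinal.{u}) : s ≤ s * s := by
  rcases eq_or_ne s 0 with rfl | h
  · simp
  · exact Ordinal.le_mul_right s (pos_iff_ne_zero.2 h)

theorem right_le_opr (a b : Ordinal.{u}) : b ≤ opr a b :=
  (le_add_self.trans (self_le_sq (a + b))).trans (sq_le_opr a b)

theorem right_lt_opr {a b : Ordinal.{u}} (h : 0 < a) : b < opr a b := by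
  have h1 : b ≤ (a + b) * (a + b) := le_add_self.trans (self_le_sq (a + b))
  refine lt_of_le_of_lt h1 ?_
  rw [opr]
  exact lt_add_of_pos_right _ h

section good
variable (hM : Good M)
include hM

theorem LF.ordAdd {S T : (ℕ → ZFSet.{u}) → ZFSet.{u}} (hS : LF M S) (hT : LF M T) :
    LF M (fun v => ordAdd (S v) (T v)) := by
  refine LF.comp2 (F := MPd14747.ordAdd) ?_ hS hT
  exact LF.recT addG hM (LF.union hM (LF.var 0) (LF.ran hM (LF.var 1)))

theorem LF.ordMul {S T : (ℕ → ZFSet.{u}) → ZFSet.{u}} (hS : LF M S) (hT : LF M T) :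
    LF M (fun v => ordMul (S v) (T v)) := by
  refine LF.comp2 (F := MPd14747.ordMul) ?_ hS hT
  refine LF.recT mulG hM (LF.sUnion hM ?_)
  exact LF.img hM (F := fun y v => MPd14747.ordAdd y (v 0)) (LF.ran hM (LF.var 1))
    (LF.ordAdd hM (LF.var 0) (LF.var 1))

theorem LF.opair {S T : (ℕ → ZFSet.{u}) → ZFSet.{u}} (hS : LF M S) (hT : LF M T) :
    LF M (fun v => opair (S v) (T v)) := by
  refine LF.comp2 (F := MPd14747.opair) ?_ hS hT
  exact LF.ordAdd hM (LF.ordMul hM (LF.ordAdd hM (LF.var 0) (LF.var 1))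
    (LF.ordAdd hM (LF.var 0) (LF.var 1))) (LF.var 0)

end good

end Pool.Agent.MPd14747
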