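import Pool.Agent.MPd14747.Frame

/-! Basic set operations are definable; transfinite recursion. -/

open FirstOrder ZFSet

universe u

namespace Pool.Agent.MPd14747

variable {M : Set ZFSet.{u}}

/-! ### operations -/

theorem mem_uu_left {x y f : ZFSet.{u}} (h : ZFSet.pair x y ∈ f) : x ∈ sUnion (sUnion f) := by
  rw [mem_sUnion]
  exact ⟨{x}, mem_sUnion.2 ⟨_, h, by simp [pair]⟩, by simp⟩

theorem mem_uu_right {x y f : ZFSet.{u}} (h : ZFSet.pair x y ∈ f) : y ∈ sUnion (sUnion f) := by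
  rw [mem_sUnion]
  exact ⟨{x, y}, mem_sUnion.2 ⟨_, h, by simp [pair]⟩, by simp⟩

/-- image of a set under a function of sets -/
noncomputable def img (a : ZFSet.{u}) (f : ZFSet.{u} → ZFSet.{u}) : ZFSet.{u} :=
  range (fun x : a => f x)

@[simp] theorem mem_img {a : ZFSet.{u}} {f : ZFSet.{u} → ZFSet.{u}} {z : ZFSet.{u}} :
    z ∈ img a f ↔ ∃ x ∈ a, f x = z := by
  simp [img]

noncomputable def dom (f : ZFSet.{u}) : ZFSet.{u} :=
  (sUnion (sUnion f)).sep (fun x => ∃ y, ZFSet.pair x y ∈ f)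

noncomputable def ran (f : ZFSet.{u}) : ZFSet.{u} :=
  (sUnion (sUnion f)).sep (fun y => ∃ x, ZFSet.pair x y ∈ f)

noncomputable def app (f x : ZFSet.{u}) : ZFSet.{u} :=
  sUnion ((sUnion (sUnion f)).sep (fun y => ZFSet.pair x y ∈ f))

noncomputable def restr (f a : ZFSet.{u}) : ZFSet.{u} :=
  f.sep (fun z => ∃ x ∈ a, ∃ y, z = ZFSet.pair x y)

@[simp] theorem mem_dom {f x : ZFSet.{u}} : x ∈ dom f ↔ ∃ y, ZFSet.pair x y ∈ f := by
  simp only [dom, mem_sep, and_iff_right_iff_imp]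
  rintro ⟨y, hy⟩; exact mem_uu_left hy

@[simp] theorem mem_ran {f y : ZFSet.{u}} : y ∈ ran f ↔ ∃ x, ZFSet.pair x y ∈ f := by
  simp only [ran, mem_sep, and_iff_right_iff_imp]
  rintro ⟨x, hx⟩; exact mem_uu_right hx

@[simp] theorem mem_restr {f a z : ZFSet.{u}} :
    z ∈ restr f a ↔ z ∈ f ∧ ∃ x ∈ a, ∃ y, z = ZFSet.pair x y := by simp [restr]

/-- `f` is single-valued at `x` with value `y` -/
theorem app_eq {f x y : ZFSet.{u}} (h : ZFSet.pair x y ∈ f) (hu : ∀ y', ZFSet.pair x y' ∈ f → y' = y) :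
    app f x = y := by
  have : (sUnion (sUnion f)).sep (fun y => ZFSet.pair x y ∈ f) = {y} := by
    ext z
    simp only [mem_sep, mem_singleton]
    constructor
    · rintro ⟨_, hz⟩; exact hu _ hz
    · rintro rfl; exact ⟨mem_uu_right h, h⟩
  rw [app, this, sUnion_singleton]

section good

variable (hM : Good M)
include hM

theorem Good.pair_left {x y f : ZFSet.{u}} (hf : f ∈ M) (h : ZFSet.pair x y ∈ f) : x ∈ M := by
  have h1 := hM.trans _ hf _ h
  have h2 : ({x} : ZFSet.{u}) ∈ M := hM.trans _ h1 _ (by simp [pair])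
  exact hM.trans _ h2 _ (by simp)

theorem Good.pair_right {x y f : ZFSet.{u}} (hf : f ∈ M) (h : ZFSet.pair x y ∈ f) : y ∈ M := by
  have h1 := hM.trans _ hf _ h
  have h2 : ({x, y} : ZFSet.{u}) ∈ M := hM.trans _ h1 _ (by simp [pair])
  exact hM.trans _ h2 _ (by simp)

theorem Good.of_pair_left {x y : ZFSet.{u}} (h : ZFSet.pair x y ∈ M) : x ∈ M := by
  have h2 : ({x} : ZFSet.{u}) ∈ M := hM.trans _ h _ (by simp [pair])
  exact hM.trans _ h2 _ (by simp)

theorem Good.of_pair_right {x y : ZFSet.{u}} (h : ZFSet.pair x y ∈ M) : y ∈ M := by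
  have h2 : ({x, y} : ZFSet.{u}) ∈ M := hM.trans _ h _ (by simp [pair])
  exact hM.trans _ h2 _ (by simp)

theorem Good.pair_mem {x y : ZFSet.{u}} (hx : x ∈ M) (hy : y ∈ M) : ZFSet.pair x y ∈ M :=
  (LF.pair hM (LF.const hx) (LF.const hy)).1 (fun _ => x) (fun _ => hx)

theorem Good.sUnion_mem {x : ZFSet.{u}} (hx : x ∈ M) : sUnion x ∈ M :=
  (LF.sUnion hM (LF.const hx)).1 (fun _ => x) (fun _ => hx)

theorem Good.insert_mem {x y : ZFSet.{u}} (hx : x ∈ M) (hy : y ∈ M) : insert x y ∈ M :=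
  (LF.insert hM (LF.const hx) (LF.const hy)).1 (fun _ => x) (fun _ => hx)

theorem Good.union_mem {x y : ZFSet.{u}} (hx : x ∈ M) (hy : y ∈ M) : x ∪ y ∈ M :=
  (LF.union hM (LF.const hx) (LF.const hy)).1 (fun _ => x) (fun _ => hx)

/-- separation -/
theorem LF.sep {T : (ℕ → ZFSet.{u}) → ZFSet.{u}} {P : ZFSet.{u} → (ℕ → ZFSet.{u}) → Prop}
    (hT : LF M T) (hP : LD M (fun v => P (v 0) (fun n => v (n + 1)))) :
    LF M (fun v => (T v).sep (fun x => P x v)) := by
  refine LF.of_mem hM ?_ ?_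
  · intro v hv z hz
    exact hM.trans _ (hT.1 v hv) _ (mem_sep.1 hz).1
  · refine LD.congr (fun v _ => mem_sep) ?_
    exact (LD.mem (LF.var 0) hT.shift).and hP

/-- replacement -/
theorem LF.img {T : (ℕ → ZFSet.{u}) → ZFSet.{u}} {F : ZFSet.{u} → (ℕ → ZFSet.{u}) → ZFSet.{u}}
    (hT : LF M T) (hF : LF M (fun v => F (v 0) (fun n => v (n + 1)))) :
    LF M (fun v => img (T v) (fun x => F x v)) := by
  refine LF.of_mem hM ?_ ?_
  · intro v hv z hz
    obtain ⟨x, hx, rfl⟩ := mem_img.1 hz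
    have hx' := hM.trans _ (hT.1 v hv) _ hx
    refine hF.1 (fun n => Nat.casesOn n x v) ?_
    rintro (_ | k)
    · exact hx'
    · exact hv k
  · refine LD.congr (fun v _ => mem_img) ?_
    refine LD.bex hM (P := fun x v => F x (fun n => v (n + 1)) = v 0) hT.shift ?_
    exact LD.eq (hF.reindex (fun n => Nat.casesOn n 0 (fun k => k + 2))) (LF.var 1)

theorem LF.app {S T : (ℕ → ZFSet.{u}) → ZFSet.{u}} (hS : LF M S) (hT : LF M T) :
    LF M (fun v => app (S v) (T v)) := by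
  refine LF.comp2 (F := MPd14747.app) ?_ hS hT
  refine LF.sUnion hM ?_
  refine LF.sep hM (P := fun y v => ZFSet.pair (v 1) y ∈ v 0) (LF.sUnion hM (LF.sUnion hM (LF.var 0))) ?_
  exact LD.mem (LF.pair hM (LF.var 2) (LF.var 0)) (LF.var 1)

theorem LF.dom {S : (ℕ → ZFSet.{u}) → ZFSet.{u}} (hS : LF M S) :
    LF M (fun v => dom (S v)) := by
  refine LF.comp1 (F := MPd14747.dom) ?_ hS
  refine LF.sep hM (P := fun x v => ∃ y, ZFSet.pair x y ∈ v 0)
    (LF.sUnion hM (LF.sUnion hM (LF.var 0))) ?_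
  refine LD.congr (Q := fun v => ∃ y ∈ M, ZFSet.pair (v 0) y ∈ v 1) (fun v hv => ?_) ?_
  · constructor
    · rintro ⟨y, hy⟩; exact ⟨y, hM.pair_right (hv 1) hy, hy⟩
    · rintro ⟨y, _, hy⟩; exact ⟨y, hy⟩
  · exact LD.exM (P := fun y v => ZFSet.pair (v 0) y ∈ v 1)
      (LD.mem (LF.pair hM (LF.var 1) (LF.var 0)) (LF.var 2))

theorem LF.ran {S : (ℕ → ZFSet.{u}) → ZFSet.{u}} (hS : LF M S) :
    LF M (fun v => ran (S v)) := by
  refine LF.comp1 (F := MPd14747.ran) ?_ hS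
  refine LF.sep hM (P := fun x v => ∃ y, ZFSet.pair y x ∈ v 0)
    (LF.sUnion hM (LF.sUnion hM (LF.var 0))) ?_
  refine LD.congr (Q := fun v => ∃ y ∈ M, ZFSet.pair y (v 0) ∈ v 1) (fun v hv => ?_) ?_
  · constructor
    · rintro ⟨y, hy⟩; exact ⟨y, hM.pair_left (hv 1) hy, hy⟩
    · rintro ⟨y, _, hy⟩; exact ⟨y, hy⟩
  · exact LD.exM (P := fun y v => ZFSet.pair y (v 0) ∈ v 1)
      (LD.mem (LF.pair hM (LF.var 0) (LF.var 1)) (LF.var 2))

theorem LF.restr {S T : (ℕ → ZFSet.{u}) → ZFSet.{u}} (hS : LF M S) (hT : LF M T) :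
    LF M (fun v => restr (S v) (T v)) := by
  refine LF.comp2 (F := MPd14747.restr) ?_ hS hT
  refine LF.sep hM (P := fun z v => ∃ x ∈ v 1, ∃ y, z = ZFSet.pair x y) (LF.var 0) ?_
  refine LD.bex hM (P := fun x v => ∃ y, v 0 = ZFSet.pair x y) (LF.var 2) ?_
  refine LD.congr (Q := fun v => ∃ y ∈ M, v 1 = ZFSet.pair (v 0) y) (fun v hv => ?_) ?_
  · constructor
    · rintro ⟨y, hy⟩
      have : ZFSet.pair (v 0) y ∈ M := hy ▸ hv 1
      exact ⟨y, hM.of_pair_right this, hy⟩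
    · rintro ⟨y, _, hy⟩; exact ⟨y, hy⟩
  · exact LD.exM (P := fun y v => v 1 = ZFSet.pair (v 0) y)
      (LD.eq (LF.var 2) (LF.pair hM (LF.var 1) (LF.var 0)))

theorem LF.prod {S T : (ℕ → ZFSet.{u}) → ZFSet.{u}} (hS : LF M S) (hT : LF M T) :
    LF M (fun v => prod (S v) (T v)) := by
  refine LF.comp2 (F := ZFSet.prod) ?_ hS hT
  refine LF.of_mem hM ?_ ?_
  · intro v hv z hz
    obtain ⟨a, ha, b, hb, rfl⟩ := mem_prod.1 hz
    exact hM.pair_mem (hM.trans _ (hv 0) _ ha) (hM.trans _ (hv 1) _ hb)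
  · refine LD.congr (fun v _ => mem_prod) ?_
    refine LD.bex hM (P := fun a v => ∃ b ∈ v 2, v 0 = ZFSet.pair a b) (LF.var 1) ?_
    refine LD.bex hM (P := fun b v => v 1 = ZFSet.pair (v 0) b) (LF.var 3) ?_
    exact LD.eq (LF.var 2) (LF.pair hM (LF.var 1) (LF.var 0))

theorem LD.isTransitive {S : (ℕ → ZFSet.{u}) → ZFSet.{u}} (hS : LF M S) :
    LD M (fun v => (S v).IsTransitive) := by
  refine LD.comp1 (P := IsTransitive) ?_ hS
  exact LD.ball hM (P := fun y v => y ⊆ v 0) (LF.var 0) (LD.subset hM (LF.var 0) (LF.var 1))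

theorem LD.isOrdinal {S : (ℕ → ZFSet.{u}) → ZFSet.{u}} (hS : LF M S) :
    LD M (fun v => (S v).IsOrdinal) := by
  refine LD.comp1 (P := IsOrdinal) ?_ hS
  refine LD.congr (fun v _ => isOrdinal_iff_forall_mem_isTransitive) ?_
  refine (LD.isTransitive hM (LF.var 0)).and ?_
  exact LD.ball hM (P := fun y v => y.IsTransitive) (LF.var 0) (LD.isTransitive hM (LF.var 0))

end good

/-! ### Transfinite recursion -/

section recursion

variable (G : ZFSet.{u} → ZFSet.{u} → ZFSet.{u})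

/-- the function on ordinals defined by recursion from `G` with parameter `p` -/
noncomputable def recF (p : ZFSet.{u}) (o : Ordinal.{u}) : ZFSet.{u} :=
  G p (range fun a : Set.Iio o => ZFSet.pair (a : Ordinal.{u}).toZFSet (recF p a))
termination_by o
decreasing_by exact a.2

noncomputable def recH (p : ZFSet.{u}) (o : Ordinal.{u}) : ZFSet.{u} :=
  range fun a : Set.Iio o => ZFSet.pair (a : Ordinal.{u}).toZFSet (recF G p a)

theorem recF_eq (p : ZFSet.{u}) (o : Ordinal.{u}) : recF G p o = G p (recH G p o) := by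
  rw [recF, recH]

theorem mem_recH {p : ZFSet.{u}} {o : Ordinal.{u}} {z : ZFSet.{u}} :
    z ∈ recH G p o ↔ ∃ a < o, z = ZFSet.pair a.toZFSet (recF G p a) := by
  simp only [recH, mem_range, Subtype.exists, Set.mem_Iio]
  constructor
  · rintro ⟨a, h, rfl⟩; exact ⟨a, h, rfl⟩
  · rintro ⟨a, h, rfl⟩; exact ⟨a, h, rfl⟩

theorem pair_mem_recH {p : ZFSet.{u}} {o a : Ordinal.{u}} {z : ZFSet.{u}} :
    ZFSet.pair a.toZFSet z ∈ recH G p o ↔ a < o ∧ z = recF G p a := by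
  rw [mem_recH]
  constructor
  · rintro ⟨b, h, e⟩
    rw [pair_inj] at e
    obtain ⟨e1, e2⟩ := e
    obtain rfl := Ordinal.toZFSet_injective e1
    exact ⟨h, e2⟩
  · rintro ⟨h, rfl⟩; exact ⟨a, h, rfl⟩

theorem dom_recH {p : ZFSet.{u}} {o : Ordinal.{u}} : dom (recH G p o) = o.toZFSet := by
  ext z
  rw [mem_dom, Ordinal.mem_toZFSet_iff]
  constructor
  · rintro ⟨y, hy⟩
    obtain ⟨a, ha, e⟩ := (mem_recH G).1 hy
    exact ⟨a, ha, (pair_inj.1 e).1.symm⟩
  · rintro ⟨a, ha, rfl⟩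
    exact ⟨_, (pair_mem_recH G).2 ⟨ha, rfl⟩⟩

theorem app_recH {p : ZFSet.{u}} {o a : Ordinal.{u}} (h : a < o) :
    app (recH G p o) a.toZFSet = recF G p a :=
  app_eq ((pair_mem_recH G).2 ⟨h, rfl⟩) fun _ h' => ((pair_mem_recH G).1 h').2

/-- `f` is the history of the recursion up to `x` -/
def IsHist (p x f : ZFSet.{u}) : Prop :=
  (∀ z ∈ f, ∃ a ∈ x, ∃ b, z = ZFSet.pair a b) ∧ ∀ a ∈ x, ∀ b, ZFSet.pair a b ∈ f ↔ b = G p (restr f a)

theorem restr_recH {p : ZFSet.{u}} {o a : Ordinal.{u}} (h : a ≤ o) :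
    restr (recH G p o) a.toZFSet = recH G p a := by
  ext z
  rw [mem_restr, mem_recH, mem_recH]
  constructor
  · rintro ⟨⟨b, hb, rfl⟩, x, hx, y, e⟩
    obtain ⟨c, hc, rfl⟩ := Ordinal.mem_toZFSet_iff.1 hx
    obtain ⟨e1, _⟩ := pair_inj.1 e
    obtain rfl := Ordinal.toZFSet_injective e1
    exact ⟨b, hc, rfl⟩
  · rintro ⟨b, hb, rfl⟩
    exact ⟨⟨b, hb.trans_le h, rfl⟩, _, Ordinal.toZFSet_mem_toZFSet_iff.2 hb, _, rfl⟩

theorem isHist_iff {p f : ZFSet.{u}} {o : Ordinal.{u}} :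
    IsHist G p o.toZFSet f ↔ f = recH G p o := by
  constructor
  · rintro ⟨h1, h2⟩
    have key : ∀ a : Ordinal.{u}, a ≤ o → restr f a.toZFSet = recH G p a := by
      intro a
      induction a using WellFoundedLT.induction with
      | _ a ih =>
        intro hao
        ext z
        rw [mem_restr, mem_recH]
        constructor
        · rintro ⟨hz, x, hx, y, rfl⟩
          obtain ⟨c, hc, rfl⟩ := Ordinal.mem_toZFSet_iff.1 hx
          refine ⟨c, hc, ?_⟩
          rw [h2 _ (Ordinal.toZFSet_mem_toZFSet_iff.2 (hc.trans_le hao)),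
            ih c hc (hc.le.trans hao), ← recF_eq G] at hz
          rw [hz]
        · rintro ⟨c, hc, rfl⟩
          refine ⟨?_, _, Ordinal.toZFSet_mem_toZFSet_iff.2 hc, _, rfl⟩
          rw [h2 _ (Ordinal.toZFSet_mem_toZFSet_iff.2 (hc.trans_le hao)),
            ih c hc (hc.le.trans hao), ← recF_eq G]
    rw [← key o le_rfl]
    ext z
    rw [mem_restr]
    exact ⟨fun h => ⟨h, h1 z h⟩, fun h => h.1⟩
  · rintro rfl
    refine ⟨fun z hz => ?_, fun a ha b => ?_⟩
    · obtain ⟨a, ha, rfl⟩ := (mem_recH G).1 hz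
      exact ⟨_, Ordinal.toZFSet_mem_toZFSet_iff.2 ha, _, rfl⟩
    · obtain ⟨c, hc, rfl⟩ := Ordinal.mem_toZFSet_iff.1 ha
      rw [pair_mem_recH, restr_recH G hc.le, ← recF_eq G]
      simp [hc]

/-- total version of the recursion -/
noncomputable def recT (p x : ZFSet.{u}) : ZFSet.{u} :=
  open Classical in if x.IsOrdinal then recF G p x.rank else ∅

@[simp] theorem recT_toZFSet (p : ZFSet.{u}) (o : Ordinal.{u}) :
    recT G p o.toZFSet = recF G p o := by
  rw [recT, if_pos (isOrdinal_toZFSet o), Ordinal.rank_toZFSet]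

section good

variable (hM : Good M) (hG : LF M (fun v => G (v 0) (v 1)))
include hM hG

theorem LD.isHist : LD M (fun v => IsHist G (v 0) (v 1) (v 2)) := by
  have hpr : ∀ i j : ℕ, LD M (fun v => ∃ b, v i = ZFSet.pair (v j) b) := by
    intro i j
    refine LD.congr (Q := fun v => ∃ y ∈ M, v i = ZFSet.pair (v j) y) (fun v hv => ?_) ?_
    · constructor
      · rintro ⟨y, hy⟩
        have : ZFSet.pair (v j) y ∈ M := hy ▸ hv i
        exact ⟨y, hM.of_pair_right this, hy⟩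
      · rintro ⟨y, _, hy⟩; exact ⟨y, hy⟩
    · exact LD.exM (P := fun y v => v i = ZFSet.pair (v j) y)
        (LD.eq (LF.var (i + 1)) (LF.pair hM (LF.var (j + 1)) (LF.var 0)))
  refine LD.and ?_ ?_
  · refine LD.ball hM (P := fun z v => ∃ a ∈ v 1, ∃ b, z = ZFSet.pair a b) (LF.var 2) ?_
    exact LD.bex hM (P := fun a v => ∃ b, v 0 = ZFSet.pair a b) (LF.var 2) (hpr 1 0)
  · refine LD.ball hM (P := fun a v => ∀ b, ZFSet.pair a b ∈ v 2 ↔ b = G (v 0) (MPd14747.restr (v 2) a))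
      (LF.var 1) ?_
    refine LD.congr (Q := fun v => ∀ b ∈ M, ZFSet.pair (v 0) b ∈ v 3 ↔
      b = G (v 1) (MPd14747.restr (v 3) (v 0))) (fun v hv => ?_) ?_
    · constructor
      · intro h b _; exact h b
      · intro h b
        constructor
        · intro hb; exact (h b (hM.pair_right (hv 3) hb)).1 hb
        · rintro rfl
          refine (h _ ?_).2 rfl
          exact (LF.comp2 hG (LF.var 1) (LF.restr hM (LF.var 3) (LF.var 0))).1 v hv
    · refine LD.allM (P := fun b v => ZFSet.pair (v 0) b ∈ v 3 ↔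
        b = G (v 1) (MPd14747.restr (v 3) (v 0))) ?_
      refine (LD.mem (LF.pair hM (LF.var 1) (LF.var 0)) (LF.var 4)).iff ?_
      exact LD.eq (LF.var 0) (LF.comp2 hG (LF.var 2) (LF.restr hM (LF.var 4) (LF.var 1)))

theorem Good.G_mem {p h : ZFSet.{u}} (hp : p ∈ M) (hh : h ∈ M) : G p h ∈ M :=
  (LF.comp2 hG (LF.const hp) (LF.const hh)).1 (fun _ => p) (fun _ => hp)

theorem Good.recH_mem {p : ZFSet.{u}} (hp : p ∈ M) (o : Ordinal.{u}) : recH G p o ∈ M := by
  induction o using WellFoundedLT.induction with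
  | _ o ih =>
    refine hM.sep (fun z v => ∃ a ∈ v 1, ∃ f ∈ M, IsHist G (v 0) a f ∧ z = ZFSet.pair a (G (v 0) f)) ?_
      (fun n => Nat.casesOn n p (fun _ => o.toZFSet)) ?_ _ ?_ ?_
    · refine LD.bex hM (P := fun a v => ∃ f ∈ M, IsHist G (v 1) a f ∧ v 0 = ZFSet.pair a (G (v 1) f))
        (LF.var 2) ?_
      refine LD.exM (P := fun f v => IsHist G (v 2) (v 0) f ∧ v 1 = ZFSet.pair (v 0) (G (v 2) f)) ?_
      refine (LD.comp3 (LD.isHist G hM hG) (LF.var 3) (LF.var 1) (LF.var 0)).and ?_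
      exact LD.eq (LF.var 2) (LF.pair hM (LF.var 1) (LF.comp2 hG (LF.var 3) (LF.var 0)))
    · rintro (_ | k)
      · exact hp
      · exact hM.ord o
    · intro z hz
      obtain ⟨a, ha, rfl⟩ := (mem_recH G).1 hz
      refine hM.pair_mem (hM.ord a) ?_
      rw [recF_eq]
      exact hM.G_mem G hG hp (ih a ha)
    · intro z hz
      rw [mem_recH]
      constructor
      · rintro ⟨a, ha, rfl⟩
        refine ⟨a.toZFSet, Ordinal.toZFSet_mem_toZFSet_iff.2 ha, recH G p a, ih a ha, ?_, ?_⟩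
        · exact (isHist_iff G).2 rfl
        · rw [recF_eq]; rfl
      · rintro ⟨a, ha, f, hf, hh, rfl⟩
        obtain ⟨c, hc, rfl⟩ := Ordinal.mem_toZFSet_iff.1 ha
        obtain rfl := (isHist_iff G).1 hh
        exact ⟨c, hc, by rw [recF_eq]; rfl⟩

theorem Good.recF_mem {p : ZFSet.{u}} (hp : p ∈ M) (o : Ordinal.{u}) : recF G p o ∈ M := by
  rw [recF_eq]; exact hM.G_mem G hG hp (hM.recH_mem G hG hp o)

theorem LF.recT : LF M (fun v => recT G (v 0) (v 1)) := by
  constructor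
  · intro v hv
    change MPd14747.recT G (v 0) (v 1) ∈ M
    unfold MPd14747.recT
    split_ifs with h
    · exact hM.recF_mem G hG (hv 0) _
    · exact hM.empty_mem
  · refine LD.congr (Q := fun v => ((v 2).IsOrdinal ∧ ∃ f ∈ M, IsHist G (v 1) (v 2) f ∧
      v 0 = G (v 1) f) ∨ (¬ (v 2).IsOrdinal ∧ v 0 = ∅)) (fun v hv => ?_) ?_
    · change v 0 = MPd14747.recT G (v 1) (v 2) ↔ _
      by_cases h : (v 2).IsOrdinal
      · obtain ⟨o, ho⟩ := isOrdinal_iff_mem_range_toZFSet.1 h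
        rw [← ho, recT_toZFSet, recF_eq]
        simp only [isOrdinal_toZFSet, not_true_eq_false, false_and, or_false, true_and]
        constructor
        · intro e
          exact ⟨_, hM.recH_mem G hG (hv 1) o, (isHist_iff G).2 rfl, e⟩
        · rintro ⟨f, _, hf, e⟩
          rw [(isHist_iff G).1 hf] at e
          exact e
      · rw [MPd14747.recT, if_neg h]
        simp [h]
    · refine LD.or ?_ ?_
      · refine (LD.isOrdinal hM (LF.var 2)).and ?_
        refine LD.exM (P := fun f v => IsHist G (v 1) (v 2) f ∧ v 0 = G (v 1) f) ?_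
        refine (LD.comp3 (LD.isHist G hM hG) (LF.var 2) (LF.var 3) (LF.var 0)).and ?_
        exact LD.eq (LF.var 1) (LF.comp2 hG (LF.var 2) (LF.var 0))
      · exact (LD.isOrdinal hM (LF.var 2)).not.and (LD.eq (LF.var 0) (LF.empty hM))

end good

end recursion

end Pool.Agent.MPd14747
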