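import Pool.Agent.MPd14747.Arith

/-! Codes for definable subsets. -/

open FirstOrder ZFSet

universe u

namespace Pool.Agent.MPd14747

variable {M : Set ZFSet.{u}}

/-! ### sequences -/

noncomputable def om : ZFSet.{u} := Ordinal.omega0.toZFSet

theorem mem_om {x : ZFSet.{u}} : x ∈ om ↔ ∃ n : ℕ, x = num n := by
  rw [om, Ordinal.mem_toZFSet_iff]
  constructor
  · rintro ⟨a, ha, rfl⟩
    obtain ⟨n, rfl⟩ := Ordinal.lt_omega0.1 ha
    exact ⟨n, rfl⟩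
  · rintro ⟨n, rfl⟩
    exact ⟨n, Ordinal.natCast_lt_omega0 n, rfl⟩

theorem num_inj {m n : ℕ} : (num m : ZFSet.{u}) = num n ↔ m = n := by
  rw [num, num, Ordinal.toZFSet_injective.eq_iff, Nat.cast_inj]

theorem num_mem_om (n : ℕ) : (num n : ZFSet.{u}) ∈ om := mem_om.2 ⟨n, rfl⟩

theorem mem_omegaSeq {f : ℕ → ZFSet.{u}} {z : ZFSet.{u}} :
    z ∈ omegaSeq f ↔ ∃ n, z = pair (num n) (f n) := by
  simp only [omegaSeq, mem_range, eq_comm]

theorem pair_mem_omegaSeq {f : ℕ → ZFSet.{u}} {n : ℕ} {z : ZFSet.{u}} :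
    pair (num n) z ∈ omegaSeq f ↔ z = f n := by
  rw [mem_omegaSeq]
  constructor
  · rintro ⟨m, e⟩
    obtain ⟨e1, e2⟩ := pair_inj.1 e
    obtain rfl := num_inj.1 e1
    exact e2
  · rintro rfl; exact ⟨n, rfl⟩

@[simp] theorem app_omegaSeq (f : ℕ → ZFSet.{u}) (n : ℕ) : app (omegaSeq f) (num n) = f n :=
  app_eq (pair_mem_omegaSeq.2 rfl) fun _ h => pair_mem_omegaSeq.1 h

theorem omegaSeq_inj {f g : ℕ → ZFSet.{u}} (h : omegaSeq f = omegaSeq g) : f = g := by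
  ext1 n
  rw [← app_omegaSeq f n, h, app_omegaSeq]

/-- `s` is a function from `ω` to `A` -/
def IsSeq (A s : ZFSet.{u}) : Prop :=
  (∀ z ∈ s, ∃ n ∈ om, ∃ a ∈ A, z = pair n a) ∧
    ∀ n ∈ (om : ZFSet.{u}), ∃ a ∈ A, pair n a ∈ s ∧ ∀ b ∈ A, pair n b ∈ s → b = a

theorem isSeq_omegaSeq {A : ZFSet.{u}} {f : ℕ → ZFSet.{u}} (h : ∀ n, f n ∈ A) :
    IsSeq A (omegaSeq f) := by
  refine ⟨fun z hz => ?_, fun n hn => ?_⟩
  · obtain ⟨n, rfl⟩ := mem_omegaSeq.1 hz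
    exact ⟨_, num_mem_om n, _, h n, rfl⟩
  · obtain ⟨n, rfl⟩ := mem_om.1 hn
    exact ⟨f n, h n, pair_mem_omegaSeq.2 rfl, fun b _ hb => pair_mem_omegaSeq.1 hb⟩

theorem IsSeq.exists {A s : ZFSet.{u}} (h : IsSeq A s) :
    ∃ f : ℕ → ZFSet.{u}, (∀ n, f n ∈ A) ∧ s = omegaSeq f := by
  choose f hf using fun n : ℕ => h.2 (num n) (num_mem_om n)
  refine ⟨f, fun n => (hf n).1, ?_⟩
  ext z
  rw [mem_omegaSeq]
  constructor
  · intro hz
    obtain ⟨n, hn, a, ha, rfl⟩ := h.1 z hz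
    obtain ⟨n, rfl⟩ := mem_om.1 hn
    exact ⟨n, by rw [(hf n).2.2 a ha hz]⟩
  · rintro ⟨n, rfl⟩
    exact (hf n).2.1

/-- all functions from `ω` to `A` lying in `M` -/
noncomputable def Asg (M : Set ZFSet.{u}) (A : ZFSet.{u}) : ZFSet.{u} :=
  (powerset (prod om A)).sep (fun s => s ∈ M ∧ IsSeq A s)

theorem mem_Asg {A s : ZFSet.{u}} : s ∈ Asg M A ↔ s ∈ M ∧ IsSeq A s := by
  rw [Asg, mem_sep, and_iff_right_iff_imp, mem_powerset]
  rintro ⟨_, h⟩ z hz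
  obtain ⟨n, hn, a, ha, rfl⟩ := h.1 z hz
  exact pair_mem_prod.2 ⟨hn, ha⟩

/-- update of a sequence -/
noncomputable def upd (s i a : ZFSet.{u}) : ZFSet.{u} :=
  s.sep (fun z => ∀ b ∈ ran s, z ≠ pair i b) ∪ {pair i a}

theorem upd_omegaSeq (f : ℕ → ZFSet.{u}) (i : ℕ) (a : ZFSet.{u}) :
    upd (omegaSeq f) (num i) a = omegaSeq (Function.update f i a) := by
  ext z
  rw [upd, mem_union, mem_sep, mem_singleton, mem_omegaSeq, mem_omegaSeq]
  constructor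
  · rintro (⟨⟨n, rfl⟩, h⟩ | rfl)
    · refine ⟨n, ?_⟩
      have hne : n ≠ i := by
        rintro rfl
        exact h (f n) (mem_ran.2 ⟨_, pair_mem_omegaSeq.2 rfl⟩) rfl
      rw [Function.update_of_ne hne]
    · exact ⟨i, by rw [Function.update_self]⟩
  · rintro ⟨n, rfl⟩
    by_cases hne : n = i
    · subst hne; right; rw [Function.update_self]
    · left
      rw [Function.update_of_ne hne]
      refine ⟨⟨n, rfl⟩, fun b _ e => hne (num_inj.1 (pair_inj.1 e).1)⟩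

section good
variable (hM : Good M)
include hM

theorem Good.om_mem : (om : ZFSet.{u}) ∈ M := hM.ord _
theorem Good.num_mem (n : ℕ) : (num n : ZFSet.{u}) ∈ M := hM.ord _

theorem LD.isSeq {S T : (ℕ → ZFSet.{u}) → ZFSet.{u}} (hS : LF M S) (hT : LF M T) :
    LD M (fun v => IsSeq (S v) (T v)) := by
  refine LD.comp2 (P := IsSeq) ?_ hS hT
  refine LD.and ?_ ?_
  · refine LD.ball hM (P := fun z v => ∃ n ∈ om, ∃ a ∈ v 0, z = pair n a) (LF.var 1) ?_
    refine LD.bex hM (P := fun n v => ∃ a ∈ v 1, v 0 = pair n a) (LF.const hM.om_mem) ?_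
    refine LD.bex hM (P := fun a v => v 1 = pair (v 0) a) (LF.var 2) ?_
    exact LD.eq (LF.var 2) (LF.pair hM (LF.var 1) (LF.var 0))
  · refine LD.ball hM (P := fun n v => ∃ a ∈ v 0, pair n a ∈ v 1 ∧
      ∀ b ∈ v 0, pair n b ∈ v 1 → b = a) (LF.const hM.om_mem) ?_
    refine LD.bex hM (P := fun a v => pair (v 0) a ∈ v 2 ∧
      ∀ b ∈ v 1, pair (v 0) b ∈ v 2 → b = a) (LF.var 1) ?_
    refine LD.and (LD.mem (LF.pair hM (LF.var 1) (LF.var 0)) (LF.var 3)) ?_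
    refine LD.ball hM (P := fun b v => pair (v 1) b ∈ v 3 → b = v 0) (LF.var 2) ?_
    exact (LD.mem (LF.pair hM (LF.var 2) (LF.var 0)) (LF.var 4)).imp (LD.eq_var 0 1)

theorem LF.Asg {S : (ℕ → ZFSet.{u}) → ZFSet.{u}} (hS : LF M S) :
    LF M (fun v => Asg M (S v)) := by
  refine LF.comp1 (F := MPd14747.Asg M) ?_ hS
  refine LF.of_mem hM (fun v _ z hz => (mem_Asg.1 hz).1) ?_
  refine LD.congr (Q := fun v => IsSeq (v 1) (v 0)) (fun v hv => ?_) (LD.isSeq hM (LF.var 1)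
    (LF.var 0))
  rw [mem_Asg]
  exact and_iff_right (hv 0)

theorem LF.upd {S T U : (ℕ → ZFSet.{u}) → ZFSet.{u}} (hS : LF M S) (hT : LF M T) (hU : LF M U) :
    LF M (fun v => upd (S v) (T v) (U v)) := by
  refine LF.comp3 (F := MPd14747.upd) ?_ hS hT hU
  refine LF.union hM ?_ (LF.singleton hM (LF.pair hM (LF.var 1) (LF.var 2)))
  refine LF.sep hM (P := fun z v => ∀ b ∈ MPd14747.ran (v 0), z ≠ ZFSet.pair (v 1) b) (LF.var 0) ?_
  refine LD.ball hM (P := fun b v => v 0 ≠ ZFSet.pair (v 2) b) (LF.ran hM (LF.var 1)) ?_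
  exact (LD.eq (LF.var 1) (LF.pair hM (LF.var 3) (LF.var 0))).not

theorem Good.upd_mem {f : ℕ → ZFSet.{u}} {a : ZFSet.{u}} (hf : omegaSeq f ∈ M) (ha : a ∈ M)
    (i : ℕ) : omegaSeq (Function.update f i a) ∈ M := by
  rw [← upd_omegaSeq]
  exact (LF.upd hM (LF.const hf) (LF.const (hM.num_mem i)) (LF.const ha)).1 (fun _ => a)
    (fun _ => ha)

end good

theorem omegaSeq_const (x : ZFSet.{u}) : omegaSeq (fun _ => x) = prod om {x} := by
  ext z
  rw [mem_omegaSeq, mem_prod]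
  constructor
  · rintro ⟨n, rfl⟩; exact ⟨_, num_mem_om n, x, by simp, rfl⟩
  · rintro ⟨n, hn, y, hy, rfl⟩
    obtain ⟨n, rfl⟩ := mem_om.1 hn
    rw [mem_singleton] at hy
    exact ⟨n, by rw [hy]⟩

theorem Good.const_mem (hM : Good M) {x : ZFSet.{u}} (hx : x ∈ M) :
    omegaSeq (fun _ => x) ∈ M := by
  rw [omegaSeq_const]
  exact (LF.prod hM (LF.const hM.om_mem) (LF.singleton hM (LF.const hx))).1 (fun _ => x)
    (fun _ => hx)

/-! ### the valuation of codes -/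

/-- the condition for a sequence `s` to belong to the set coded by `dom h` -/
def ValCond (p h s : ZFSet.{u}) : Prop :=
  (∃ i ∈ (om : ZFSet.{u}), ∃ j ∈ (om : ZFSet.{u}),
    dom h = opair (num 0) (opair i j) ∧ app s i ∈ app s j) ∨
  (∃ i ∈ (om : ZFSet.{u}), ∃ j ∈ (om : ZFSet.{u}),
    dom h = opair (num 1) (opair i j) ∧ app s i = app s j) ∨
  (∃ i ∈ (om : ZFSet.{u}), ∃ a ∈ dom p,
    dom h = opair (num 2) (opair i (app p a)) ∧ app s i = a) ∨
  (∃ η ∈ dom h, ∃ η' ∈ dom h,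
    dom h = opair (num 3) (opair η η') ∧ ¬ (s ∈ app h η ∧ s ∈ app h η')) ∨
  (∃ i ∈ (om : ZFSet.{u}), ∃ η ∈ dom h,
    dom h = opair (num 4) (opair i η) ∧ ∃ a ∈ dom p, upd s i a ∈ app h η)

noncomputable def valG (M : Set ZFSet.{u}) (p h : ZFSet.{u}) : ZFSet.{u} :=
  (Asg M (dom p)).sep (ValCond p h)

section good
variable (hM : Good M)
include hM

theorem LD.valCond : LD M (fun v => ValCond (v 0) (v 1) (v 2)) := by
  have hom : LF M (fun _ => om) := LF.const hM.om_mem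
  have hnum : ∀ n, LF M (fun _ => num n) := fun n => LF.const (hM.num_mem n)
  refine LD.or ?_ (LD.or ?_ (LD.or ?_ (LD.or ?_ ?_)))
  · refine LD.bex hM (P := fun i v => ∃ j ∈ (om : ZFSet.{u}),
      dom (v 1) = opair (num 0) (opair i j) ∧ app (v 2) i ∈ app (v 2) j) hom ?_
    refine LD.bex hM (P := fun j v =>
      dom (v 2) = opair (num 0) (opair (v 0) j) ∧ app (v 3) (v 0) ∈ app (v 3) j) hom ?_
    refine (LD.eq (LF.dom hM (LF.var 3)) (LF.opair hM (hnum 0)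
      (LF.opair hM (LF.var 1) (LF.var 0)))).and ?_
    exact LD.mem (LF.app hM (LF.var 4) (LF.var 1)) (LF.app hM (LF.var 4) (LF.var 0))
  · refine LD.bex hM (P := fun i v => ∃ j ∈ (om : ZFSet.{u}),
      dom (v 1) = opair (num 1) (opair i j) ∧ app (v 2) i = app (v 2) j) hom ?_
    refine LD.bex hM (P := fun j v =>
      dom (v 2) = opair (num 1) (opair (v 0) j) ∧ app (v 3) (v 0) = app (v 3) j) hom ?_
    refine (LD.eq (LF.dom hM (LF.var 3)) (LF.opair hM (hnum 1)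
      (LF.opair hM (LF.var 1) (LF.var 0)))).and ?_
    exact LD.eq (LF.app hM (LF.var 4) (LF.var 1)) (LF.app hM (LF.var 4) (LF.var 0))
  · refine LD.bex hM (P := fun i v => ∃ a ∈ dom (v 0),
      dom (v 1) = opair (num 2) (opair i (app (v 0) a)) ∧ app (v 2) i = a) hom ?_
    refine LD.bex hM (P := fun a v =>
      dom (v 2) = opair (num 2) (opair (v 0) (app (v 1) a)) ∧ app (v 3) (v 0) = a)
      (LF.dom hM (LF.var 1)) ?_
    refine (LD.eq (LF.dom hM (LF.var 3)) (LF.opair hM (hnum 2)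
      (LF.opair hM (LF.var 1) (LF.app hM (LF.var 2) (LF.var 0))))).and ?_
    exact LD.eq (LF.app hM (LF.var 4) (LF.var 1)) (LF.var 0)
  · refine LD.bex hM (P := fun η v => ∃ η' ∈ dom (v 1),
      dom (v 1) = opair (num 3) (opair η η') ∧ ¬ (v 2 ∈ app (v 1) η ∧ v 2 ∈ app (v 1) η'))
      (LF.dom hM (LF.var 1)) ?_
    refine LD.bex hM (P := fun η' v =>
      dom (v 2) = opair (num 3) (opair (v 0) η') ∧ ¬ (v 3 ∈ app (v 2) (v 0) ∧ v 3 ∈ app (v 2) η'))
      (LF.dom hM (LF.var 2)) ?_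
    refine (LD.eq (LF.dom hM (LF.var 3)) (LF.opair hM (hnum 3)
      (LF.opair hM (LF.var 1) (LF.var 0)))).and ?_
    exact ((LD.mem (LF.var 4) (LF.app hM (LF.var 3) (LF.var 1))).and
      (LD.mem (LF.var 4) (LF.app hM (LF.var 3) (LF.var 0)))).not
  · refine LD.bex hM (P := fun i v => ∃ η ∈ dom (v 1),
      dom (v 1) = opair (num 4) (opair i η) ∧ ∃ a ∈ dom (v 0), upd (v 2) i a ∈ app (v 1) η) hom ?_
    refine LD.bex hM (P := fun η v =>
      dom (v 2) = opair (num 4) (opair (v 0) η) ∧ ∃ a ∈ dom (v 1),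
        upd (v 3) (v 0) a ∈ app (v 2) η) (LF.dom hM (LF.var 2)) ?_
    refine (LD.eq (LF.dom hM (LF.var 3)) (LF.opair hM (hnum 4)
      (LF.opair hM (LF.var 1) (LF.var 0)))).and ?_
    refine LD.bex hM (P := fun a v => upd (v 4) (v 1) a ∈ app (v 3) (v 0))
      (LF.dom hM (LF.var 2)) ?_
    exact LD.mem (LF.upd hM (LF.var 5) (LF.var 2) (LF.var 0)) (LF.app hM (LF.var 4) (LF.var 1))

theorem LF.valG : LF M (fun v => valG M (v 0) (v 1)) :=
  LF.sep hM (P := fun s v => ValCond (v 0) (v 1) s) (LF.Asg hM (LF.dom hM (LF.var 0)))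
    (LD.comp3 (P := ValCond) (LD.valCond hM) (LF.var 1) (LF.var 2) (LF.var 0))

end good

/-- the set of sequences coded by the ordinal `ξ` -/
noncomputable def val (M : Set ZFSet.{u}) (p : ZFSet.{u}) (ξ : Ordinal.{u}) : ZFSet.{u} :=
  recF (valG M) p ξ

noncomputable def valT (M : Set ZFSet.{u}) (p x : ZFSet.{u}) : ZFSet.{u} := recT (valG M) p x

theorem LF.valT (hM : Good M) {S T : (ℕ → ZFSet.{u}) → ZFSet.{u}} (hS : LF M S) (hT : LF M T) :
    LF M (fun v => valT M (S v) (T v)) :=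
  LF.comp2 (F := MPd14747.valT M) (LF.recT (MPd14747.valG M) hM (LF.valG hM)) hS hT

end Pool.Agent.MPd14747
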