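import Pool.Agent.MPd14747.Codes

/-! Codes for definable subsets: correspondence with first-order definability. -/

open FirstOrder ZFSet

universe u

namespace Pool.Agent.MPd14747

variable {M : Set ZFSet.{u}}

/-- `p` is an injective function into the ordinals -/
def IsCodeFn (p : ZFSet.{u}) : Prop :=
  (∀ a ∈ dom p, (app p a).IsOrdinal) ∧ ∀ a ∈ dom p, ∀ b ∈ dom p, app p a = app p b → a = b

theorem num_eq (n : ℕ) : (num n : ZFSet.{u}) = (n : Ordinal.{u}).toZFSet := rfl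

theorem opair_num (n : ℕ) (b : Ordinal.{u}) :
    opair (num n) b.toZFSet = (opr n b).toZFSet := by rw [num_eq, opair_toZFSet]

theorem opair_num_num (n m : ℕ) :
    opair (num n) (num m : ZFSet.{u}) = (opr n m).toZFSet := by rw [num_eq, num_eq, opair_toZFSet]

theorem omegaSeq_mem_Asg {A : ZFSet.{u}} {f : ℕ → ZFSet.{u}} :
    omegaSeq f ∈ Asg M A ↔ omegaSeq f ∈ M ∧ ∀ n, f n ∈ A := by
  rw [mem_Asg]
  refine and_congr_right fun _ => ⟨fun h => ?_, isSeq_omegaSeq⟩
  obtain ⟨g, hg, e⟩ := h.exists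
  obtain rfl := omegaSeq_inj e
  exact hg

theorem mem_val {p : ZFSet.{u}} (hp : IsCodeFn p) {ξ : Ordinal.{u}} {f : ℕ → ZFSet.{u}} :
    omegaSeq f ∈ val M p ξ ↔ (omegaSeq f ∈ M ∧ ∀ n, f n ∈ dom p) ∧
    ((∃ i j : ℕ, ξ = opr (0 : ℕ) (opr i j) ∧ f i ∈ f j) ∨
     (∃ i j : ℕ, ξ = opr (1 : ℕ) (opr i j) ∧ f i = f j) ∨
     (∃ i : ℕ, ∃ a ∈ dom p, ξ = opr (2 : ℕ) (opr i (app p a).rank) ∧ f i = a) ∨
     (∃ η < ξ, ∃ η' < ξ, ξ = opr (3 : ℕ) (opr η η') ∧
        ¬ (omegaSeq f ∈ val M p η ∧ omegaSeq f ∈ val M p η')) ∨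
     (∃ i : ℕ, ∃ η < ξ, ξ = opr (4 : ℕ) (opr i η) ∧
        ∃ a ∈ dom p, omegaSeq (Function.update f i a) ∈ val M p η)) := by
  rw [val, recF_eq, valG, mem_sep, omegaSeq_mem_Asg]
  refine and_congr_right fun _ => ?_
  rw [ValCond, dom_recH]
  refine or_congr ?_ (or_congr ?_ (or_congr ?_ (or_congr ?_ ?_)))
  · constructor
    · rintro ⟨i, hi, j, hj, e, h⟩
      obtain ⟨i, rfl⟩ := mem_om.1 hi
      obtain ⟨j, rfl⟩ := mem_om.1 hj
      rw [opair_num_num, opair_num] at e
      rw [app_omegaSeq, app_omegaSeq] at h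
      exact ⟨i, j, Ordinal.toZFSet_injective e, h⟩
    · rintro ⟨i, j, rfl, h⟩
      refine ⟨_, num_mem_om i, _, num_mem_om j, ?_, ?_⟩
      · rw [opair_num_num, opair_num]
      · rwa [app_omegaSeq, app_omegaSeq]
  · constructor
    · rintro ⟨i, hi, j, hj, e, h⟩
      obtain ⟨i, rfl⟩ := mem_om.1 hi
      obtain ⟨j, rfl⟩ := mem_om.1 hj
      rw [opair_num_num, opair_num] at e
      rw [app_omegaSeq, app_omegaSeq] at h
      exact ⟨i, j, Ordinal.toZFSet_injective e, h⟩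
    · rintro ⟨i, j, rfl, h⟩
      refine ⟨_, num_mem_om i, _, num_mem_om j, ?_, ?_⟩
      · rw [opair_num_num, opair_num]
      · rwa [app_omegaSeq, app_omegaSeq]
  · constructor
    · rintro ⟨i, hi, a, ha, e, h⟩
      obtain ⟨i, rfl⟩ := mem_om.1 hi
      rw [← (hp.1 a ha).toZFSet_rank_eq, opair_num, opair_num] at e
      rw [app_omegaSeq] at h
      exact ⟨i, a, ha, Ordinal.toZFSet_injective e, h⟩
    · rintro ⟨i, a, ha, rfl, h⟩
      refine ⟨_, num_mem_om i, _, ha, ?_, ?_⟩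
      · conv_rhs => rw [← (hp.1 a ha).toZFSet_rank_eq]
        rw [opair_num, opair_num]
      · rwa [app_omegaSeq]
  · constructor
    · rintro ⟨x, hx, x', hx', e, h⟩
      obtain ⟨η, hη, rfl⟩ := Ordinal.mem_toZFSet_iff.1 hx
      obtain ⟨η', hη', rfl⟩ := Ordinal.mem_toZFSet_iff.1 hx'
      rw [opair_toZFSet, opair_num] at e
      rw [app_recH _ hη, app_recH _ hη'] at h
      exact ⟨η, hη, η', hη', Ordinal.toZFSet_injective e, h⟩
    · rintro ⟨η, hη, η', hη', e, h⟩
      refine ⟨_, Ordinal.toZFSet_mem_toZFSet_iff.2 hη, _, Ordinal.toZFSet_mem_toZFSet_iff.2 hη',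
        ?_, ?_⟩
      · rw [opair_toZFSet, opair_num, ← e]
      · rwa [app_recH _ hη, app_recH _ hη']
  · constructor
    · rintro ⟨i, hi, x, hx, e, a, ha, h⟩
      obtain ⟨i, rfl⟩ := mem_om.1 hi
      obtain ⟨η, hη, rfl⟩ := Ordinal.mem_toZFSet_iff.1 hx
      rw [opair_num, opair_num] at e
      rw [app_recH _ hη, upd_omegaSeq] at h
      exact ⟨i, η, hη, Ordinal.toZFSet_injective e, a, ha, h⟩
    · rintro ⟨i, η, hη, e, a, ha, h⟩
      refine ⟨_, num_mem_om i, _, Ordinal.toZFSet_mem_toZFSet_iff.2 hη, ?_, a, ha, ?_⟩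
      · rw [opair_num, opair_num, ← e]
      · rwa [app_recH _ hη, upd_omegaSeq]

/-- `ξ` codes the set `D` of sequences -/
def Code (M : Set ZFSet.{u}) (p : ZFSet.{u}) (ξ : Ordinal.{u})
    (D : Set (ℕ → (dom p : Set ZFSet.{u}))) : Prop :=
  ∀ f : ℕ → (dom p : Set ZFSet.{u}), omegaSeq (fun n => (f n : ZFSet.{u})) ∈ M →
    (omegaSeq (fun n => (f n : ZFSet.{u})) ∈ val M p ξ ↔ f ∈ D)

theorem opr_nat_ne {m n : ℕ} (h : m ≠ n) (a b : Ordinal.{u}) : opr m a ≠ opr n b := by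
  intro e
  have := (opr_inj e).1
  rw [Nat.cast_inj] at this
  exact h this

theorem opr_nat_inj {m : ℕ} {a b : Ordinal.{u}} (e : opr m a = opr m b) : a = b := (opr_inj e).2

theorem opr_nat_nat_inj {i j i' j' : ℕ} (e : opr (i : Ordinal.{u}) j = opr i' j') :
    i = i' ∧ j = j' := by
  have := opr_inj e
  rwa [Nat.cast_inj, Nat.cast_inj] at this

section codes

variable {p : ZFSet.{u}} (hp : IsCodeFn p)
include hp

theorem code_mem (i j : ℕ) : Code M p (opr (0 : ℕ) (opr i j))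
    {f | (f i : ZFSet.{u}) ∈ (f j : ZFSet.{u})} := by
  intro f hf
  rw [mem_val hp]
  constructor
  · rintro ⟨_, h | h | h | h | h⟩
    · obtain ⟨i', j', e, h⟩ := h
      obtain ⟨rfl, rfl⟩ := opr_nat_nat_inj (opr_nat_inj e)
      exact h
    · obtain ⟨i', j', e, h⟩ := h
      exact absurd e (opr_nat_ne (by decide) _ _)
    · obtain ⟨i', a, _, e, h⟩ := h
      exact absurd e (opr_nat_ne (by decide) _ _)
    · obtain ⟨i', _, a, _, e, h⟩ := h
      exact absurd e (opr_nat_ne (by decide) _ _)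
    · obtain ⟨i', a, _, e, h⟩ := h
      exact absurd e (opr_nat_ne (by decide) _ _)
  · intro h
    exact ⟨⟨hf, fun n => (f n).2⟩, Or.inl ⟨i, j, rfl, h⟩⟩

theorem code_eq (i j : ℕ) : Code M p (opr (1 : ℕ) (opr i j)) {f | f i = f j} := by
  intro f hf
  rw [mem_val hp]
  constructor
  · rintro ⟨_, h | h | h | h | h⟩
    · obtain ⟨i', j', e, h⟩ := h
      exact absurd e (opr_nat_ne (by decide) _ _)
    · obtain ⟨i', j', e, h⟩ := h
      obtain ⟨rfl, rfl⟩ := opr_nat_nat_inj (opr_nat_inj e)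
      exact Subtype.ext h
    · obtain ⟨i', a, _, e, h⟩ := h
      exact absurd e (opr_nat_ne (by decide) _ _)
    · obtain ⟨i', _, a, _, e, h⟩ := h
      exact absurd e (opr_nat_ne (by decide) _ _)
    · obtain ⟨i', a, _, e, h⟩ := h
      exact absurd e (opr_nat_ne (by decide) _ _)
  · intro h
    exact ⟨⟨hf, fun n => (f n).2⟩, Or.inr (Or.inl ⟨i, j, rfl, congrArg Subtype.val h⟩)⟩

theorem code_const (i : ℕ) (a : (dom p : Set ZFSet.{u})) :
    Code M p (opr (2 : ℕ) (opr i (app p a).rank)) {f | f i = a} := by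
  intro f hf
  rw [mem_val hp]
  constructor
  · rintro ⟨_, h | h | h | h | h⟩
    · obtain ⟨i', j', e, h⟩ := h
      exact absurd e (opr_nat_ne (by decide) _ _)
    · obtain ⟨i', j', e, h⟩ := h
      exact absurd e (opr_nat_ne (by decide) _ _)
    · obtain ⟨i', b, hb, e, h⟩ := h
      obtain ⟨e1, e2⟩ := opr_inj (opr_nat_inj e)
      rw [Nat.cast_inj] at e1
      subst e1
      rw [IsOrdinal.rank_inj (hp.1 a a.2) (hp.1 b hb)] at e2
      have := hp.2 a a.2 b hb e2
      exact Subtype.ext (h.trans this.symm)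
    · obtain ⟨i', _, a, _, e, h⟩ := h
      exact absurd e (opr_nat_ne (by decide) _ _)
    · obtain ⟨i', a, _, e, h⟩ := h
      exact absurd e (opr_nat_ne (by decide) _ _)
  · intro h
    exact ⟨⟨hf, fun n => (f n).2⟩,
      Or.inr (Or.inr (Or.inl ⟨i, a, a.2, rfl, congrArg Subtype.val h⟩))⟩

theorem code_nand {η η' : Ordinal.{u}} {D D' : Set (ℕ → (dom p : Set ZFSet.{u}))}
    (h1 : Code M p η D) (h2 : Code M p η' D') :
    Code M p (opr (3 : ℕ) (opr η η')) {f | ¬ (f ∈ D ∧ f ∈ D')} := by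
  intro f hf
  rw [mem_val hp]
  constructor
  · rintro ⟨_, h | h | h | h | h⟩
    · obtain ⟨i', j', e, h⟩ := h
      exact absurd e (opr_nat_ne (by decide) _ _)
    · obtain ⟨i', j', e, h⟩ := h
      exact absurd e (opr_nat_ne (by decide) _ _)
    · obtain ⟨i', b, hb, e, h⟩ := h
      exact absurd e (opr_nat_ne (by decide) _ _)
    · obtain ⟨μ, _, μ', _, e, h⟩ := h
      obtain ⟨rfl, rfl⟩ := opr_inj (opr_nat_inj e)
      rwa [h1 f hf, h2 f hf] at h
    · obtain ⟨i', a, _, e, h⟩ := h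
      exact absurd e (opr_nat_ne (by decide) _ _)
  · intro h
    refine ⟨⟨hf, fun n => (f n).2⟩,
      Or.inr (Or.inr (Or.inr (Or.inl ⟨η, ?_, η', ?_, rfl, ?_⟩)))⟩
    · exact (left_le_opr _ _).trans_lt (right_lt_opr (by simp))
    · exact (right_le_opr _ _).trans_lt (right_lt_opr (by simp))
    · rwa [h1 f hf, h2 f hf]

theorem code_proj (hM : Good M) (hpM : dom p ∈ M) {η : Ordinal.{u}}
    {D : Set (ℕ → (dom p : Set ZFSet.{u}))} (h1 : Code M p η D) (i : ℕ) :
    Code M p (opr (4 : ℕ) (opr i η)) {f | ∃ a, Function.update f i a ∈ D} := by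
  have hupd : ∀ (f : ℕ → (dom p : Set ZFSet.{u})) (a : (dom p : Set ZFSet.{u})),
      Function.update (fun n => (f n : ZFSet.{u})) i a =
        fun n => ((Function.update f i a n : (dom p : Set ZFSet.{u})) : ZFSet.{u}) := by
    intro f a
    ext1 n
    by_cases h : n = i
    · subst h; simp
    · simp [Function.update_of_ne h]
  intro f hf
  rw [mem_val hp]
  constructor
  · rintro ⟨_, h | h | h | h | h⟩
    · obtain ⟨i', j', e, h⟩ := h
      exact absurd e (opr_nat_ne (by decide) _ _)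
    · obtain ⟨i', j', e, h⟩ := h
      exact absurd e (opr_nat_ne (by decide) _ _)
    · obtain ⟨i', b, hb, e, h⟩ := h
      exact absurd e (opr_nat_ne (by decide) _ _)
    · obtain ⟨μ, _, μ', _, e, h⟩ := h
      exact absurd e (opr_nat_ne (by decide) _ _)
    · obtain ⟨i', μ, _, e, a, ha, h⟩ := h
      obtain ⟨e1, rfl⟩ := opr_inj (opr_nat_inj e)
      rw [Nat.cast_inj] at e1
      subst e1
      refine ⟨⟨a, ha⟩, ?_⟩
      have e2 := hupd f ⟨a, ha⟩
      have hm : omegaSeq (fun n => ((Function.update f i ⟨a, ha⟩ n :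
          (dom p : Set ZFSet.{u})) : ZFSet.{u})) ∈ M := by
        rw [← e2]
        exact hM.upd_mem hf (hM.trans _ hpM _ ha) i
      rw [← h1 _ hm, ← e2]
      exact h
  · rintro ⟨a, h⟩
    refine ⟨⟨hf, fun n => (f n).2⟩,
      Or.inr (Or.inr (Or.inr (Or.inr ⟨i, η, ?_, rfl, a, a.2, ?_⟩)))⟩
    · exact (right_le_opr _ _).trans_lt (right_lt_opr (by simp))
    · have e2 := hupd f a
      have hm : omegaSeq (fun n => ((Function.update f i a n :
          (dom p : Set ZFSet.{u})) : ZFSet.{u})) ∈ M := by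
        rw [← e2]
        exact hM.upd_mem hf (hM.trans _ hpM _ a.2) i
      rw [e2, h1 _ hm]
      exact h

/-- every ordinal codes a definable set of sequences -/
theorem exists_definable (hM : Good M) (hpM : dom p ∈ M) (ξ : Ordinal.{u}) :
    ∃ D : Set (ℕ → (dom p : Set ZFSet.{u})),
      (Set.univ : Set (dom p : Set ZFSet.{u})).Definable setLang D ∧ Code M p ξ D := by
  induction ξ using WellFoundedLT.induction with
  | _ ξ ih =>
    by_cases h0 : ∃ i j : ℕ, ξ = opr (0 : ℕ) (opr i j)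
    · obtain ⟨i, j, rfl⟩ := h0
      exact ⟨_, LD.mem_var (M := (dom p : Set ZFSet.{u})) i j, code_mem hp i j⟩
    by_cases h1 : ∃ i j : ℕ, ξ = opr (1 : ℕ) (opr i j)
    · obtain ⟨i, j, rfl⟩ := h1
      refine ⟨_, ?_, code_eq hp i j⟩
      have := LD.eq_var (M := (dom p : Set ZFSet.{u})) i j
      unfold LD at this
      convert! this using 2
      ext f
      exact Subtype.ext_iff
    by_cases h2 : ∃ i : ℕ, ∃ a ∈ dom p, ξ = opr (2 : ℕ) (opr i (app p a).rank)
    · obtain ⟨i, a, ha, rfl⟩ := h2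
      refine ⟨_, ?_, code_const hp i ⟨a, ha⟩⟩
      have := LD.eq (M := (dom p : Set ZFSet.{u})) (LF.var i) (LF.const (c := a) ha)
      unfold LD at this
      convert! this using 2
      ext f
      exact Subtype.ext_iff
    by_cases h3 : ∃ η < ξ, ∃ η' < ξ, ξ = opr (3 : ℕ) (opr η η')
    · obtain ⟨η, hη, η', hη', e⟩ := h3
      obtain ⟨D, hD, hD2⟩ := ih η hη
      obtain ⟨D', hD', hD2'⟩ := ih η' hη'
      rw [e]
      exact ⟨_, (hD.inter hD').compl, code_nand hp hD2 hD2'⟩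
    by_cases h4 : ∃ i : ℕ, ∃ η < ξ, ξ = opr (4 : ℕ) (opr i η)
    · obtain ⟨i, η, hη, e⟩ := h4
      obtain ⟨D, hD, hD2⟩ := ih η hη
      rw [e]
      refine ⟨_, ?_, code_proj hp hM hpM hD2 i⟩
      have h5 := hD.preimage_comp (fun n : ℕ => if n = i then Sum.inr () else Sum.inl n :
        ℕ → ℕ ⊕ Unit)
      have h6 := Set.Definable.exists_of_finite h5
      convert! h6 using 2
      ext f
      constructor
      · rintro ⟨a, ha⟩
        refine ⟨fun _ => a, ?_⟩
        change _ ∈ D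
        convert! ha using 1
        ext1 n
        by_cases h : n = i
        · subst h; simp
        · simp [h]
      · rintro ⟨u, hu⟩
        refine ⟨u (), ?_⟩
        change _ ∈ D at hu
        convert! hu using 1
        ext1 n
        by_cases h : n = i
        · subst h; simp
        · simp [h]
    · refine ⟨∅, Set.definable_empty, fun f hf => ?_⟩
      rw [mem_val hp]
      simp only [Set.mem_empty_iff_false, iff_false]
      rintro ⟨_, h | h | h | h | h⟩
      · obtain ⟨i, j, e, _⟩ := h; exact h0 ⟨i, j, e⟩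
      · obtain ⟨i, j, e, _⟩ := h; exact h1 ⟨i, j, e⟩
      · obtain ⟨i, a, ha, e, _⟩ := h; exact h2 ⟨i, a, ha, e⟩
      · obtain ⟨η, hη, η', hη', e, _⟩ := h; exact h3 ⟨η, hη, η', hη', e⟩
      · obtain ⟨i, η, hη, e, _⟩ := h; exact h4 ⟨i, η, hη, e⟩

end codes

end Pool.Agent.MPd14747
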