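import Pool.Agent.MPd14747.Codes2

/-! Every definable subset has a code. -/

open FirstOrder ZFSet

universe u

namespace Pool.Agent.MPd14747

variable {M : Set ZFSet.{u}}

def Cod (M : Set ZFSet.{u}) (p : ZFSet.{u}) (D : Set (ℕ → (dom p : Set ZFSet.{u}))) : Prop :=
  ∃ ξ, Code M p ξ D

section codes

variable {p : ZFSet.{u}}

theorem Cod.congr {D D' : Set (ℕ → (dom p : Set ZFSet.{u}))} (h : ∀ f, f ∈ D ↔ f ∈ D')
    (h' : Cod M p D') : Cod M p D := by
  have : D = D' := Set.ext h
  rwa [this]

variable (hp : IsCodeFn p)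
include hp

theorem Cod.not {D : Set (ℕ → (dom p : Set ZFSet.{u}))} (h : Cod M p D) :
    Cod M p {f | ¬ f ∈ D} := by
  obtain ⟨ξ, h⟩ := h
  exact Cod.congr (fun f => by simp) ⟨_, code_nand hp h h⟩

theorem Cod.and {D D' : Set (ℕ → (dom p : Set ZFSet.{u}))} (h : Cod M p D) (h' : Cod M p D') :
    Cod M p {f | f ∈ D ∧ f ∈ D'} := by
  obtain ⟨ξ, h⟩ := h
  obtain ⟨ξ', h'⟩ := h'
  have := Cod.not hp ⟨_, code_nand hp h h'⟩
  exact Cod.congr (fun f => by simp) this

theorem Cod.ex (hM : Good M) (hpM : dom p ∈ M) {D : Set (ℕ → (dom p : Set ZFSet.{u}))}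
    (h : Cod M p D) (i : ℕ) : Cod M p {f | ∃ a, Function.update f i a ∈ D} := by
  obtain ⟨ξ, h⟩ := h
  exact ⟨_, code_proj hp hM hpM h i⟩

/-- value of a term -/
abbrev tval {n : ℕ}
    (t : setLang.Term (((Set.univ : Set (dom p : Set ZFSet.{u})) ⊕ Fin 1) ⊕ Fin n))
    (f : ℕ → (dom p : Set ZFSet.{u})) : (dom p : Set ZFSet.{u}) :=
  t.realize (Sum.elim (Sum.elim
    (fun a : (Set.univ : Set (dom p : Set ZFSet.{u})) => a.1) (fun _ : Fin 1 => f 0))
    (fun i : Fin n => f (i + 1)))

omit hp in
theorem tval_update {n : ℕ}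
    (t : setLang.Term (((Set.univ : Set (dom p : Set ZFSet.{u})) ⊕ Fin 1) ⊕ Fin n))
    (f : ℕ → (dom p : Set ZFSet.{u})) (k : ℕ) (hk : n < k) (a : (dom p : Set ZFSet.{u})) :
    tval t (Function.update f k a) = tval t f := by
  cases t with
  | var x =>
    rcases x with (x | x) | x
    · rfl
    · simp only [tval, Language.Term.realize_var, Sum.elim_inl, Sum.elim_inr]
      rw [Function.update_of_ne (by omega)]
    · simp only [tval, Language.Term.realize_var, Sum.elim_inr]
      rw [Function.update_of_ne (by omega)]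
  | func g _ => exact g.elim

theorem cod_term {n : ℕ}
    (t : setLang.Term (((Set.univ : Set (dom p : Set ZFSet.{u})) ⊕ Fin 1) ⊕ Fin n)) (k : ℕ) :
    Cod M p {f | tval t f = f k} := by
  cases t with
  | var x =>
    rcases x with (x | x) | x
    · exact Cod.congr (fun f => eq_comm) ⟨_, code_const hp k (x : (dom p : Set ZFSet.{u}))⟩
    · exact ⟨_, code_eq hp 0 k⟩
    · exact ⟨_, code_eq hp (x + 1) k⟩
  | func g _ => exact g.elim

theorem cod_formula (hM : Good M) (hpM : dom p ∈ M) {n : ℕ}
    (φ : setLang.BoundedFormula ((Set.univ : Set (dom p : Set ZFSet.{u})) ⊕ Fin 1) n) :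
    Cod M p {f | φ.Realize
      (Sum.elim (fun a : (Set.univ : Set (dom p : Set ZFSet.{u})) => a.1) (fun _ : Fin 1 => f 0))
      (fun i : Fin n => f (i + 1))} := by
  induction φ with
  | falsum =>
    have h1 : Cod M p {f | (f 0 : ZFSet.{u}) ∈ (f 0 : ZFSet.{u})} := ⟨_, code_mem hp 0 0⟩
    refine Cod.congr (fun f => ?_) h1
    simp only [Set.mem_ofPred_eq]
    exact ⟨fun h => h.elim, fun h => (ZFSet.mem_irrefl _ h).elim⟩
  | @equal n t₁ t₂ =>
    have h1 := Cod.ex hp hM hpM (Cod.and hp (cod_term (M := M) hp t₁ (n + 1))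
      (cod_term hp t₂ (n + 1))) (n + 1)
    refine Cod.congr (fun f => ?_) h1
    change tval t₁ f = tval t₂ f ↔ ∃ a,
      tval t₁ (Function.update f (n + 1) a) = Function.update f (n + 1) a (n + 1) ∧
      tval t₂ (Function.update f (n + 1) a) = Function.update f (n + 1) a (n + 1)
    constructor
    · intro h
      refine ⟨tval t₁ f, ?_⟩
      rw [tval_update _ _ _ (by omega), tval_update _ _ _ (by omega), Function.update_self]
      exact ⟨rfl, h.symm⟩
    · rintro ⟨a, ha⟩
      rw [tval_update _ _ _ (by omega), tval_update _ _ _ (by omega), Function.update_self] at ha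
      rw [ha.1, ha.2]
  | @rel n l R ts =>
    cases R
    have h2 := Cod.ex hp hM hpM (Cod.and hp (Cod.and hp (cod_term (M := M) hp (ts 0) (n + 1))
      (cod_term hp (ts 1) (n + 2))) ⟨_, code_mem hp (n + 1) (n + 2)⟩) (n + 2)
    have h1 := Cod.ex hp hM hpM h2 (n + 1)
    refine Cod.congr (fun f => ?_) h1
    change (tval (ts 0) f : ZFSet.{u}) ∈ (tval (ts 1) f : ZFSet.{u}) ↔ ∃ a b,
      (tval (ts 0) (Function.update (Function.update f (n + 1) a) (n + 2) b) =
        Function.update (Function.update f (n + 1) a) (n + 2) b (n + 1) ∧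
      tval (ts 1) (Function.update (Function.update f (n + 1) a) (n + 2) b) =
        Function.update (Function.update f (n + 1) a) (n + 2) b (n + 2)) ∧
      (Function.update (Function.update f (n + 1) a) (n + 2) b (n + 1) : ZFSet.{u}) ∈
        (Function.update (Function.update f (n + 1) a) (n + 2) b (n + 2) : ZFSet.{u})
    have e : ∀ a b, Function.update (Function.update f (n + 1) a) (n + 2) b (n + 1) = a := by
      intro a b
      rw [Function.update_of_ne (by omega), Function.update_self]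
    constructor
    · intro h
      refine ⟨tval (ts 0) f, tval (ts 1) f, ?_⟩
      rw [tval_update _ _ _ (by omega), tval_update _ _ _ (by omega),
        tval_update _ _ _ (by omega), tval_update _ _ _ (by omega), e, Function.update_self]
      exact ⟨⟨rfl, rfl⟩, h⟩
    · rintro ⟨a, b, ha⟩
      rw [tval_update _ _ _ (by omega), tval_update _ _ _ (by omega),
        tval_update _ _ _ (by omega), tval_update _ _ _ (by omega), e, Function.update_self] at ha
      rw [ha.1.1, ha.1.2]
      exact ha.2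
  | imp φ ψ ih1 ih2 =>
    have h1 := Cod.not hp (Cod.and hp ih1 (Cod.not hp ih2))
    refine Cod.congr (fun f => ?_) h1
    simp only [Set.mem_ofPred_eq, Language.BoundedFormula.realize_imp]
    tauto
  | @all n φ ih =>
    have h1 := Cod.not hp (Cod.ex hp hM hpM (Cod.not hp ih) (n + 1))
    refine Cod.congr (fun f => ?_) h1
    simp only [Set.mem_ofPred_eq, Language.BoundedFormula.realize_all, not_exists, not_not]
    refine forall_congr' fun a => ?_
    have e1 : (fun _ : Fin 1 => Function.update f (n + 1) a 0) = fun _ => f 0 := by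
      ext1 i
      rw [Function.update_of_ne (by omega)]
    have e2 : (fun i : Fin (n + 1) => Function.update f (n + 1) a (i + 1)) =
        Fin.snoc (fun i : Fin n => f (i + 1)) a := by
      ext1 i
      refine Fin.lastCases ?_ (fun j => ?_) i
      · simp
      · rw [Fin.snoc_castSucc]
        rw [Function.update_of_ne]
        · simp
        · have := j.2
          simp only [Fin.val_castSucc]
          omega
    rw [e1, e2]

end codes

/-- the subset of `dom p` coded by `x` -/
noncomputable def BstT (M : Set ZFSet.{u}) (p x : ZFSet.{u}) : ZFSet.{u} :=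
  (dom p).sep (fun y => prod om {y} ∈ valT M p x)

theorem LF.BstT (hM : Good M) {S T : (ℕ → ZFSet.{u}) → ZFSet.{u}} (hS : LF M S) (hT : LF M T) :
    LF M (fun v => BstT M (S v) (T v)) := by
  refine LF.comp2 (F := MPd14747.BstT M) ?_ hS hT
  refine LF.sep hM (P := fun y v => ZFSet.prod om {y} ∈ MPd14747.valT M (v 0) (v 1))
    (LF.dom hM (LF.var 0)) ?_
  exact LD.mem (LF.prod hM (LF.const hM.om_mem) (LF.singleton hM (LF.var 0)))
    (LF.valT hM (LF.var 1) (LF.var 2))

theorem mem_defPow {a b : ZFSet.{u}} : b ∈ defPow a ↔ b ⊆ a ∧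
    (Set.univ : Set (a : Set ZFSet.{u})).Definable₁ setLang {x | (x : ZFSet.{u}) ∈ b} := by
  rw [defPow, mem_sep, mem_powerset]

theorem mem_defPow_iff (hM : Good M) {p : ZFSet.{u}} (hp : IsCodeFn p) (hpM : p ∈ M)
    (b : ZFSet.{u}) :
    b ∈ defPow (dom p) ↔ ∃ ξ : Ordinal.{u}, b = BstT M p ξ.toZFSet := by
  have hdM : dom p ∈ M := (LF.dom hM (LF.const hpM)).1 (fun _ => p) (fun _ => hpM)
  have hval : ∀ ξ : Ordinal.{u}, valT M p ξ.toZFSet = val M p ξ := fun ξ => recT_toZFSet _ _ _
  rw [mem_defPow]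
  constructor
  · rintro ⟨hsub, hdef⟩
    rw [Set.Definable₁, Set.definable_iff_exists_formula_sum] at hdef
    obtain ⟨φ, hφ⟩ := hdef
    obtain ⟨ξ, hξ⟩ := cod_formula hp hM hdM φ
    refine ⟨ξ, ?_⟩
    ext y
    rw [BstT, mem_sep, hval]
    have key : ∀ hy : y ∈ dom p, (y ∈ b ↔ prod om {y} ∈ val M p ξ) := by
      intro hy
      have h1 := hξ (fun _ => ⟨y, hy⟩) (hM.const_mem (hM.trans _ hdM _ hy))
      rw [omegaSeq_const] at h1
      rw [h1]
      have h2 := Set.ext_iff.1 hφ (fun _ => ⟨y, hy⟩)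
      simp only [Set.mem_ofPred_eq] at h2
      rw [h2]
      simp only [Set.mem_ofPred_eq, Language.Formula.Realize]
      rw [iff_iff_eq]
      congr 1
      ext i
      exact i.elim0
    constructor
    · intro hy
      exact ⟨hsub hy, (key (hsub hy)).1 hy⟩
    · rintro ⟨hy, h⟩
      exact (key hy).2 h
  · rintro ⟨ξ, rfl⟩
    refine ⟨sep_subset, ?_⟩
    obtain ⟨D, hD, hcode⟩ := exists_definable hp hM hdM ξ
    have h1 := hD.preimage_comp (fun _ : ℕ => (0 : Fin 1))
    unfold Set.Definable₁
    convert! h1 using 1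
    ext g
    have hy := (g 0).2
    have h2 := hcode (fun _ => g 0) (hM.const_mem (hM.trans _ hdM _ hy))
    rw [omegaSeq_const] at h2
    simp only [Set.mem_ofPred_eq, BstT, mem_sep, hval]
    rw [h2]
    constructor
    · rintro ⟨_, h⟩; exact h
    · intro h; exact ⟨hy, h⟩

end Pool.Agent.MPd14747
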