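import Mathlib

/-!
Definitions for MP_d14747_lc: Goedel's constructible universe `L` inside `ZFSet`, and the
Rothberger game relativised to a class `M` of sets.
-/

open FirstOrder

universe u

namespace Pool.Agent.MPd14747

/-- Relation symbols of the language of set theory: one binary symbol. -/
inductive MemRel : ℕ → Type
  | mem : MemRel 2

/-- The first-order language of set theory. -/
def setLang : FirstOrder.Language.{0, 0} where
  Functions := fun _ => Empty
  Relations := MemRel

/-- Every class `A` of sets is a structure for the language of set theory: the symbol is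
interpreted as true membership between elements of `A`. -/
instance memStructure (A : Set ZFSet.{u}) : setLang.Structure A where
  funMap := fun {_} f => Empty.elim f
  RelMap := fun {_} r => match r with
    | MemRel.mem => fun v => (v 0 : ZFSet.{u}) ∈ (v 1 : ZFSet.{u})

/-- `Def(a)`: the set of all subsets of `a` which are first-order definable, with parameters
from `a`, over the structure `(a, ∈)`. -/
noncomputable def defPow (a : ZFSet.{u}) : ZFSet.{u} :=
  (ZFSet.powerset a).sep fun b =>
    (Set.univ : Set (a : Set ZFSet.{u})).Definable₁ setLang {x | (x : ZFSet.{u}) ∈ b}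

/-- The constructible hierarchy: `L_o = ⋃_{c < o} Def(L_c)`. -/
noncomputable def Lstage (o : Ordinal.{u}) : ZFSet.{u} :=
  ZFSet.iUnion fun c : Set.Iio o => defPow (Lstage c)
termination_by o
decreasing_by exact c.2

/-- The constructible universe. -/
def L : Set ZFSet.{u} := {x | ∃ o : Ordinal.{u}, x ∈ Lstage o}

/-- The von Neumann natural number `n = {0, ..., n-1}`. -/
noncomputable def num (n : ℕ) : ZFSet.{u} := (n : Ordinal.{u}).toZFSet

/-- The finite sequence `(s 0, ..., s (n-1))`, as a set: the function with domain `n` and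
values `s i`. -/
noncomputable def finSeq {n : ℕ} (s : Fin n → ZFSet.{u}) : ZFSet.{u} :=
  ZFSet.range fun i : Fin n => ZFSet.pair (num i) (s i)

/-- The infinite sequence `(f 0, f 1, ...)`, as a set: the function with domain `ω` and values
`f n`. -/
noncomputable def omegaSeq (f : ℕ → ZFSet.{u}) : ZFSet.{u} :=
  ZFSet.range fun n : ℕ => ZFSet.pair (num n) (f n)

/-- `(X, τ)` satisfies, in the class `M`, the definition of a topological space: `τ` is a family
of subsets of `X` containing the empty set and `X`, closed under binary intersections, and under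
unions of those subfamilies that belong to `M`. -/
def IsTopologyIn (M : Set ZFSet.{u}) (X τ : ZFSet.{u}) : Prop :=
  (∀ U ∈ τ, U ⊆ X) ∧ ∅ ∈ τ ∧ X ∈ τ ∧ (∀ U ∈ τ, ∀ V ∈ τ, U ∩ V ∈ τ) ∧
    ∀ S ∈ M, S ⊆ τ → ZFSet.sUnion S ∈ τ

/-- In the class `M`, `𝒰` is an open cover of the space `(X, τ)`. -/
def IsOpenCoverIn (M : Set ZFSet.{u}) (X τ 𝒰 : ZFSet.{u}) : Prop :=
  𝒰 ∈ M ∧ 𝒰 ⊆ τ ∧ ZFSet.sUnion 𝒰 = X

/-- In the class `M`, `s` is (the set coding) a nonempty finite sequence of open covers of
`(X, τ)`, with last term `𝒰`. -/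
def IsPositionIn (M : Set ZFSet.{u}) (X τ s 𝒰 : ZFSet.{u}) : Prop :=
  s ∈ M ∧ ∃ (n : ℕ) (g : Fin (n + 1) → ZFSet.{u}),
    (∀ i, IsOpenCoverIn M X τ (g i)) ∧ s = finSeq g ∧ 𝒰 = g (Fin.last n)

/-- In the class `M`, `σ` is a strategy for player II in the Rothberger game on `(X, τ)`: a
function whose domain is the set of all nonempty finite sequences of open covers of `(X, τ)` (the
moves of player I so far) and which assigns to each such sequence a member of its last term. -/
def IsStrategyIn (M : Set ZFSet.{u}) (X τ σ : ZFSet.{u}) : Prop :=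
  σ ∈ M ∧ (∀ z ∈ σ, ∃ s 𝒰 U, IsPositionIn M X τ s 𝒰 ∧ z = ZFSet.pair s U) ∧
    ∀ s 𝒰, IsPositionIn M X τ s 𝒰 → (∃! U, ZFSet.pair s U ∈ σ) ∧ ∀ U, ZFSet.pair s U ∈ σ → U ∈ 𝒰

/-- In the class `M`, the strategy `σ` of player II wins every play: for every infinite sequence
`f` in `M` of open covers, the sets chosen by `σ` cover `X`. -/
def IsWinningIn (M : Set ZFSet.{u}) (X τ σ : ZFSet.{u}) : Prop :=
  ∀ f : ℕ → ZFSet.{u}, omegaSeq f ∈ M → (∀ n, IsOpenCoverIn M X τ (f n)) →
    ∀ x ∈ X, ∃ (n : ℕ) (U : ZFSet.{u}),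
      ZFSet.pair (finSeq fun i : Fin (n + 1) => f i) U ∈ σ ∧ x ∈ U

/-- In the class `M`, player II has a winning strategy in the Rothberger game on `(X, τ)`. -/
def TwoWinsRothbergerIn (M : Set ZFSet.{u}) (X τ : ZFSet.{u}) : Prop :=
  ∃ σ, IsStrategyIn M X τ σ ∧ IsWinningIn M X τ σ

/-- The topology on `X` generated (in the universe of all sets) by `τ` as a base: all `U ⊆ X`
which are unions of members of `τ`. -/
noncomputable def generatedTopology (X τ : ZFSet.{u}) : ZFSet.{u} :=
  (ZFSet.powerset X).sep fun U => ∀ x ∈ U, ∃ B ∈ τ, x ∈ B ∧ B ⊆ U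

end Pool.Agent.MPd14747
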