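import Pool.Agent.MPd14747.Defs

/-! Closure properties of definability over a class of sets. -/

open FirstOrder

universe u

namespace Pool.Agent.MPd14747

variable {M : Set ZFSet.{u}}

/-- The environment `v` takes values in `M`. -/
def EnvIn (M : Set ZFSet.{u}) (v : ℕ → ZFSet.{u}) : Prop := ∀ i, v i ∈ M

/-- `P` is definable over `(M, ∈)` with parameters. -/
def LD (M : Set ZFSet.{u}) (P : (ℕ → ZFSet.{u}) → Prop) : Prop :=
  (Set.univ : Set M).Definable setLang {v : ℕ → M | P fun i => (v i : ZFSet.{u})}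

theorem LD.congr {P Q : (ℕ → ZFSet.{u}) → Prop} (h : ∀ v, EnvIn M v → (P v ↔ Q v))
    (hQ : LD M Q) : LD M P := by
  unfold LD at *
  convert! hQ using 2
  ext v
  exact h _ fun i => (v i).2

theorem LD.and {P Q : (ℕ → ZFSet.{u}) → Prop} (hP : LD M P) (hQ : LD M Q) :
    LD M (fun v => P v ∧ Q v) := Set.Definable.inter hP hQ

theorem LD.or {P Q : (ℕ → ZFSet.{u}) → Prop} (hP : LD M P) (hQ : LD M Q) :
    LD M (fun v => P v ∨ Q v) := Set.Definable.union hP hQ

theorem LD.not {P : (ℕ → ZFSet.{u}) → Prop} (hP : LD M P) :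
    LD M (fun v => ¬ P v) := Set.Definable.compl hP

theorem LD.imp {P Q : (ℕ → ZFSet.{u}) → Prop} (hP : LD M P) (hQ : LD M Q) :
    LD M (fun v => P v → Q v) :=
  LD.congr (fun _ _ => imp_iff_not_or) (hP.not.or hQ)

theorem LD.iff {P Q : (ℕ → ZFSet.{u}) → Prop} (hP : LD M P) (hQ : LD M Q) :
    LD M (fun v => P v ↔ Q v) :=
  LD.congr (fun _ _ => iff_iff_implies_and_implies) ((hP.imp hQ).and (hQ.imp hP))

theorem LD.true : LD M (fun _ => True) := Set.definable_univ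
theorem LD.false : LD M (fun _ => False) := Set.definable_empty

theorem LD.const (p : Prop) : LD M (fun _ => p) := by
  by_cases h : p
  · exact LD.congr (fun _ _ => by simp [h]) LD.true
  · exact LD.congr (fun _ _ => by simp [h]) LD.false

theorem LD.reindex {P : (ℕ → ZFSet.{u}) → Prop} (f : ℕ → ℕ) (hP : LD M P) :
    LD M (fun v => P (fun i => v (f i))) :=
  Set.Definable.preimage_comp f hP

theorem LD.exM {P : ZFSet.{u} → (ℕ → ZFSet.{u}) → Prop}
    (h : LD M (fun v => P (v 0) (fun n => v (n + 1)))) :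
    LD M (fun v => ∃ x ∈ M, P x v) := by
  have h1 : (Set.univ : Set M).Definable setLang
      {w : ℕ ⊕ Unit → M | P (w (Sum.inr ()) : ZFSet.{u}) (fun n => (w (Sum.inl n) : ZFSet.{u}))} := by
    have := Set.Definable.preimage_comp (fun n : ℕ => Nat.casesOn n (Sum.inr ()) Sum.inl :
      ℕ → ℕ ⊕ Unit) h
    exact this
  have h2 := Set.Definable.exists_of_finite h1
  unfold LD
  convert! h2 using 2
  ext v
  constructor
  · rintro ⟨x, hx, hP⟩
    exact ⟨fun _ => ⟨x, hx⟩, hP⟩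
  · rintro ⟨u, hu⟩
    exact ⟨u (), (u ()).2, hu⟩

theorem LD.allM {P : ZFSet.{u} → (ℕ → ZFSet.{u}) → Prop}
    (h : LD M (fun v => P (v 0) (fun n => v (n + 1)))) :
    LD M (fun v => ∀ x ∈ M, P x v) := by
  refine LD.congr (Q := fun v => ¬ ∃ x ∈ M, ¬ P x v) (fun v _ => by push Not; rfl) ?_
  exact (LD.exM (P := fun x v => ¬ P x v) h.not).not

theorem LD.mem_var (i j : ℕ) : LD M (fun v => v i ∈ v j) := by
  refine (Set.empty_definable_iff.2 ⟨Language.Relations.formula₂ (L := setLang)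
    (MemRel.mem : setLang.Relations 2)
    (Language.Term.var i) (Language.Term.var j), ?_⟩).mono (Set.empty_subset _)
  ext v
  exact (Language.Formula.realize_rel₂ (L := setLang) (R := (MemRel.mem : setLang.Relations 2))
    (t₁ := Language.Term.var i) (t₂ := Language.Term.var j) (v := v)).symm

theorem LD.eq_var (i j : ℕ) : LD M (fun v => v i = v j) := by
  refine ⟨(Language.Term.var i).equal (Language.Term.var j), ?_⟩
  ext v
  simp [Subtype.ext_iff]

/-- `T` is a function definable over `(M, ∈)` with parameters, mapping `M` to `M`. -/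
def LF (M : Set ZFSet.{u}) (T : (ℕ → ZFSet.{u}) → ZFSet.{u}) : Prop :=
  (∀ v, EnvIn M v → T v ∈ M) ∧ LD M (fun v => v 0 = T (fun n => v (n + 1)))

theorem LF.var (i : ℕ) : LF M (fun v => v i) :=
  ⟨fun _ hv => hv i, LD.eq_var 0 (i + 1)⟩

theorem LF.const {c : ZFSet.{u}} (hc : c ∈ M) : LF M (fun _ => c) := by
  refine ⟨fun _ _ => hc, ?_⟩
  have h := Set.Definable.singleton_of_mem setLang (Set.mem_univ (⟨c, hc⟩ : M))
  have h2 := Set.Definable.preimage_comp (fun _ : Fin 1 => (0 : ℕ)) h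
  unfold LD
  convert! h2 using 2
  ext v
  simp [Subtype.ext_iff]

theorem LF.congr {S T : (ℕ → ZFSet.{u}) → ZFSet.{u}} (h : ∀ v, EnvIn M v → S v = T v)
    (hT : LF M T) : LF M S := by
  refine ⟨fun v hv => h v hv ▸ hT.1 v hv, LD.congr (fun v hv => ?_) hT.2⟩
  rw [h _ fun i => hv (i + 1)]

theorem LF.reindex {T : (ℕ → ZFSet.{u}) → ZFSet.{u}} (f : ℕ → ℕ) (hT : LF M T) :
    LF M (fun v => T (fun i => v (f i))) := by
  refine ⟨fun v hv => hT.1 _ fun i => hv (f i), ?_⟩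
  exact hT.2.reindex (fun n => Nat.casesOn n 0 (fun k => f k + 1))

theorem LF.shift {T : (ℕ → ZFSet.{u}) → ZFSet.{u}} (hT : LF M T) :
    LF M (fun v => T (fun i => v (i + 1))) := hT.reindex _

/-- substitute a definable function for the most recent variable -/
theorem LD.subst {P : ZFSet.{u} → (ℕ → ZFSet.{u}) → Prop} {T : (ℕ → ZFSet.{u}) → ZFSet.{u}}
    (hP : LD M (fun v => P (v 0) (fun n => v (n + 1)))) (hT : LF M T) :
    LD M (fun v => P (T v) v) := by
  refine LD.congr (Q := fun v => ∃ x ∈ M, x = T v ∧ P x v) (fun v hv => ?_)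
    (LD.exM (P := fun x v => x = T v ∧ P x v) (hT.2.and hP))
  constructor
  · intro h; exact ⟨_, hT.1 v hv, rfl, h⟩
  · rintro ⟨_, _, rfl, h⟩; exact h

theorem LD.comp1 {P : ZFSet.{u} → Prop} {T : (ℕ → ZFSet.{u}) → ZFSet.{u}}
    (hP : LD M (fun v => P (v 0))) (hT : LF M T) : LD M (fun v => P (T v)) :=
  LD.subst (P := fun x _ => P x) hP hT

theorem LD.comp2 {P : ZFSet.{u} → ZFSet.{u} → Prop} {S T : (ℕ → ZFSet.{u}) → ZFSet.{u}}
    (hP : LD M (fun v => P (v 0) (v 1))) (hS : LF M S) (hT : LF M T) :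
    LD M (fun v => P (S v) (T v)) :=
  LD.subst (P := fun x v => P x (T v))
    (LD.subst (P := fun y v => P (v 0) y)
      (hP.reindex (fun n => Nat.casesOn n 1 (fun _ => 0))) hT.shift) hS

theorem LD.comp3 {P : ZFSet.{u} → ZFSet.{u} → ZFSet.{u} → Prop}
    {S T U : (ℕ → ZFSet.{u}) → ZFSet.{u}}
    (hP : LD M (fun v => P (v 0) (v 1) (v 2))) (hS : LF M S) (hT : LF M T) (hU : LF M U) :
    LD M (fun v => P (S v) (T v) (U v)) :=
  LD.subst (P := fun x v => P x (T v) (U v))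
    (LD.subst (P := fun y v => P (v 0) y (U (fun n => v (n + 1))))
      (LD.subst (P := fun z v => P (v 1) (v 0) z)
        (hP.reindex (fun n => Nat.casesOn n 2 (fun k => Nat.casesOn k 1 (fun _ => 0))))
        hU.shift.shift) hT.shift) hS

theorem LD.comp4 {P : ZFSet.{u} → ZFSet.{u} → ZFSet.{u} → ZFSet.{u} → Prop}
    {S T U W : (ℕ → ZFSet.{u}) → ZFSet.{u}}
    (hP : LD M (fun v => P (v 0) (v 1) (v 2) (v 3))) (hS : LF M S) (hT : LF M T) (hU : LF M U)
    (hW : LF M W) :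
    LD M (fun v => P (S v) (T v) (U v) (W v)) :=
  LD.subst (P := fun x v => P x (T v) (U v) (W v))
    (LD.subst (P := fun y v => P (v 0) y (U (fun n => v (n + 1))) (W (fun n => v (n + 1))))
      (LD.subst (P := fun z v => P (v 1) (v 0) z (W (fun n => v (n + 2))))
        (LD.subst (P := fun w v => P (v 2) (v 1) (v 0) w)
          (hP.reindex (fun n => 3 - n)) hW.shift.shift.shift)
        hU.shift.shift) hT.shift) hS

theorem EnvIn.cons2 {v : ℕ → ZFSet.{u}} {a b : ZFSet.{u}} (hv : EnvIn M v) (ha : a ∈ M)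
    (hb : b ∈ M) : EnvIn M (fun n => Nat.casesOn n a (fun k => Nat.casesOn k b (fun k => v k))) := by
  rintro (_ | _ | k)
  · exact ha
  · exact hb
  · exact hv k

theorem LF.comp1 {F : ZFSet.{u} → ZFSet.{u}} {S : (ℕ → ZFSet.{u}) → ZFSet.{u}}
    (hF : LF M (fun v => F (v 0))) (hS : LF M S) : LF M (fun v => F (S v)) := by
  refine ⟨fun v hv => hF.1 (fun n => Nat.casesOn n (S v) v) ?_, ?_⟩
  · rintro (_ | k)
    · exact hS.1 v hv
    · exact hv k
  · exact LD.comp2 (P := fun x y => x = F y) hF.2 (LF.var 0) hS.shift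

theorem LF.comp2 {F : ZFSet.{u} → ZFSet.{u} → ZFSet.{u}} {S T : (ℕ → ZFSet.{u}) → ZFSet.{u}}
    (hF : LF M (fun v => F (v 0) (v 1))) (hS : LF M S) (hT : LF M T) :
    LF M (fun v => F (S v) (T v)) := by
  refine ⟨fun v hv => hF.1 (fun n => Nat.casesOn n (S v) (fun k => Nat.casesOn k (T v) v)) ?_, ?_⟩
  · rintro (_ | _ | k)
    · exact hS.1 v hv
    · exact hT.1 v hv
    · exact hv k
  · exact LD.comp3 (P := fun x y z => x = F y z) hF.2 (LF.var 0) hS.shift hT.shift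

theorem LF.comp3 {F : ZFSet.{u} → ZFSet.{u} → ZFSet.{u} → ZFSet.{u}}
    {S T U : (ℕ → ZFSet.{u}) → ZFSet.{u}}
    (hF : LF M (fun v => F (v 0) (v 1) (v 2))) (hS : LF M S) (hT : LF M T) (hU : LF M U) :
    LF M (fun v => F (S v) (T v) (U v)) := by
  refine ⟨fun v hv => hF.1 (fun n => Nat.casesOn n (S v) (fun k => Nat.casesOn k (T v)
    (fun k => Nat.casesOn k (U v) v))) ?_, ?_⟩
  · rintro (_ | _ | _ | k)
    · exact hS.1 v hv
    · exact hT.1 v hv
    · exact hU.1 v hv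
    · exact hv k
  · exact LD.comp4 (P := fun x y z w => x = F y z w) hF.2 (LF.var 0) hS.shift hT.shift hU.shift

theorem LD.mem {S T : (ℕ → ZFSet.{u}) → ZFSet.{u}} (hS : LF M S) (hT : LF M T) :
    LD M (fun v => S v ∈ T v) := LD.comp2 (P := fun x y => x ∈ y) (LD.mem_var 0 1) hS hT

theorem LD.eq {S T : (ℕ → ZFSet.{u}) → ZFSet.{u}} (hS : LF M S) (hT : LF M T) :
    LD M (fun v => S v = T v) := LD.comp2 (P := fun x y => x = y) (LD.eq_var 0 1) hS hT

/-- transitive classes closed under definable comprehension for sets -/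
structure Good (M : Set ZFSet.{u}) : Prop where
  trans : ∀ x ∈ M, ∀ y ∈ x, y ∈ M
  sep : ∀ (P : ZFSet.{u} → (ℕ → ZFSet.{u}) → Prop),
    LD M (fun v => P (v 0) (fun n => v (n + 1))) → ∀ v, EnvIn M v →
      ∀ y : ZFSet.{u}, (∀ z ∈ y, z ∈ M) → (∀ z ∈ M, z ∈ y ↔ P z v) → y ∈ M
  ord : ∀ o : Ordinal.{u}, o.toZFSet ∈ M

section good

variable (hM : Good M)
include hM

theorem LD.bex {T : (ℕ → ZFSet.{u}) → ZFSet.{u}} {P : ZFSet.{u} → (ℕ → ZFSet.{u}) → Prop}
    (hT : LF M T) (h : LD M (fun v => P (v 0) (fun n => v (n + 1)))) :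
    LD M (fun v => ∃ x ∈ T v, P x v) := by
  refine LD.congr (Q := fun v => ∃ x ∈ M, x ∈ T v ∧ P x v) (fun v hv => ?_)
    (LD.exM (P := fun x v => x ∈ T v ∧ P x v) ((LD.mem (LF.var 0) hT.shift).and h))
  constructor
  · rintro ⟨x, hx, hP⟩; exact ⟨x, hM.trans _ (hT.1 v hv) _ hx, hx, hP⟩
  · rintro ⟨x, _, hx, hP⟩; exact ⟨x, hx, hP⟩

theorem LD.ball {T : (ℕ → ZFSet.{u}) → ZFSet.{u}} {P : ZFSet.{u} → (ℕ → ZFSet.{u}) → Prop}
    (hT : LF M T) (h : LD M (fun v => P (v 0) (fun n => v (n + 1)))) :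
    LD M (fun v => ∀ x ∈ T v, P x v) := by
  refine LD.congr (Q := fun v => ¬ ∃ x ∈ T v, ¬ P x v) (fun v _ => by push Not; rfl) ?_
  exact (LD.bex hM (P := fun x v => ¬ P x v) hT h.not).not

theorem LD.subset {S T : (ℕ → ZFSet.{u}) → ZFSet.{u}} (hS : LF M S) (hT : LF M T) :
    LD M (fun v => S v ⊆ T v) :=
  LD.ball hM (P := fun x v => x ∈ T v) hS (LD.mem (LF.var 0) hT.shift)

/-- set-builder functions are definable functions -/
theorem LF.of_mem {T : (ℕ → ZFSet.{u}) → ZFSet.{u}} (hsub : ∀ v, EnvIn M v → ∀ z ∈ T v, z ∈ M)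
    (h : LD M (fun v => v 0 ∈ T (fun n => v (n + 1)))) : LF M T := by
  refine ⟨fun v hv => hM.sep (fun z v => z ∈ T v) h v hv _ (hsub v hv) (fun _ _ => Iff.rfl), ?_⟩
  refine LD.congr (Q := fun v => ∀ z ∈ M, (z ∈ v 0 ↔ z ∈ T (fun n => v (n + 1)))) (fun v hv => ?_)
    (LD.allM (P := fun z v => (z ∈ v 0 ↔ z ∈ T (fun n => v (n + 1)))) ?_)
  · constructor
    · rintro h z _
      rw [h]
    · intro h
      ext z
      constructor
      · intro hz; exact (h z (hM.trans _ (hv 0) _ hz)).1 hz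
      · intro hz; exact (h z (hsub _ (fun i => hv (i + 1)) _ hz)).2 hz
  · refine (LD.mem_var 0 1).iff ?_
    exact h.reindex (fun n => Nat.casesOn n 0 (fun k => k + 2))

theorem LF.empty : LF M (fun _ => ∅) :=
  LF.of_mem hM (by simp) (LD.congr (fun _ _ => by simp) LD.false)

theorem Good.empty_mem : (∅ : ZFSet.{u}) ∈ M := by
  have := hM.ord 0
  simpa using this

theorem LF.insert {S T : (ℕ → ZFSet.{u}) → ZFSet.{u}} (hS : LF M S) (hT : LF M T) :
    LF M (fun v => insert (S v) (T v)) := by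
  refine LF.comp2 (F := fun x y => Insert.insert x y) ?_ hS hT
  refine LF.of_mem hM ?_ ?_
  · intro v hv z hz
    rcases ZFSet.mem_insert_iff.1 hz with rfl | hz
    · exact hv 0
    · exact hM.trans _ (hv 1) _ hz
  · refine LD.congr (Q := fun v => v 0 = v 1 ∨ v 0 ∈ v 2) (fun v _ => ZFSet.mem_insert_iff) ?_
    exact (LD.eq_var 0 1).or (LD.mem_var 0 2)

theorem LF.singleton {S : (ℕ → ZFSet.{u}) → ZFSet.{u}} (hS : LF M S) :
    LF M (fun v => {S v}) :=
  LF.congr (fun v _ => by rw [LawfulSingleton.insert_empty_eq]) (LF.insert hM hS (LF.empty hM))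

theorem LF.pair {S T : (ℕ → ZFSet.{u}) → ZFSet.{u}} (hS : LF M S) (hT : LF M T) :
    LF M (fun v => ZFSet.pair (S v) (T v)) :=
  LF.insert hM (LF.singleton hM hS) (LF.singleton hM (LF.insert hM hS (LF.singleton hM hT)))

theorem LF.sUnion {S : (ℕ → ZFSet.{u}) → ZFSet.{u}} (hS : LF M S) :
    LF M (fun v => ZFSet.sUnion (S v)) := by
  refine LF.comp1 (F := ZFSet.sUnion) ?_ hS
  refine LF.of_mem hM ?_ ?_
  · intro v hv z hz
    obtain ⟨y, hy, hz⟩ := ZFSet.mem_sUnion.1 hz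
    exact hM.trans _ (hM.trans _ (hv 0) _ hy) _ hz
  · refine LD.congr (Q := fun v => ∃ y ∈ v 1, v 0 ∈ y) (fun v _ => ZFSet.mem_sUnion) ?_
    exact LD.bex hM (P := fun y v => v 0 ∈ y) (LF.var 1) (LD.mem_var 1 0)

theorem LF.union {S T : (ℕ → ZFSet.{u}) → ZFSet.{u}} (hS : LF M S) (hT : LF M T) :
    LF M (fun v => S v ∪ T v) :=
  LF.sUnion hM (LF.insert hM hS (LF.singleton hM hT))

end good

end Pool.Agent.MPd14747
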