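import Pool.Agent.MPd14747.LGood

/-! Absoluteness of winning strategies for player II in the Rothberger game. -/

open FirstOrder ZFSet

universe u

namespace Pool.Agent.MPd14747

/-! ### finite sequences -/

theorem mem_finSeq {n : ℕ} {g : Fin n → ZFSet.{u}} {z : ZFSet.{u}} :
    z ∈ finSeq g ↔ ∃ i : Fin n, z = pair (num i) (g i) := by
  simp only [finSeq, mem_range, eq_comm]

theorem pair_mem_finSeq {n : ℕ} {g : Fin n → ZFSet.{u}} {i : Fin n} {z : ZFSet.{u}} :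
    pair (num i) z ∈ finSeq g ↔ z = g i := by
  rw [mem_finSeq]
  constructor
  · rintro ⟨j, e⟩
    obtain ⟨e1, e2⟩ := pair_inj.1 e
    have := num_inj.1 e1
    rw [e2, Fin.ext this]
  · rintro rfl; exact ⟨i, rfl⟩

/-- the sequence `(f 0, ..., f (n-1))` -/
noncomputable def fs (f : ℕ → ZFSet.{u}) (n : ℕ) : ZFSet.{u} := finSeq (fun i : Fin n => f i)

theorem mem_fs {f : ℕ → ZFSet.{u}} {n : ℕ} {z : ZFSet.{u}} :
    z ∈ fs f n ↔ ∃ i < n, z = pair (num i) (f i) := by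
  rw [fs, mem_finSeq]
  constructor
  · rintro ⟨i, rfl⟩; exact ⟨i, i.2, rfl⟩
  · rintro ⟨i, hi, rfl⟩; exact ⟨⟨i, hi⟩, rfl⟩

theorem fs_zero (f : ℕ → ZFSet.{u}) : fs f 0 = ∅ := by
  rw [eq_empty]
  intro y hy
  obtain ⟨i, hi, _⟩ := mem_fs.1 hy
  omega

theorem fs_congr {f g : ℕ → ZFSet.{u}} {n : ℕ} (h : ∀ i < n, f i = g i) : fs f n = fs g n := by
  ext z
  rw [mem_fs, mem_fs]
  constructor
  · rintro ⟨i, hi, rfl⟩; exact ⟨i, hi, by rw [h i hi]⟩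
  · rintro ⟨i, hi, rfl⟩; exact ⟨i, hi, by rw [h i hi]⟩

theorem mem_num {n : ℕ} {x : ZFSet.{u}} : x ∈ (num n : ZFSet.{u}) ↔ ∃ i < n, x = num i := by
  rw [num, Ordinal.mem_toZFSet_iff]
  constructor
  · rintro ⟨a, ha, rfl⟩
    obtain ⟨k, rfl⟩ := Ordinal.lt_omega0.1 (ha.trans (Ordinal.natCast_lt_omega0 n))
    exact ⟨k, Nat.cast_lt.1 ha, rfl⟩
  · rintro ⟨i, hi, rfl⟩
    exact ⟨i, Nat.cast_lt.2 hi, rfl⟩

theorem num_succ (n : ℕ) : (num (n + 1) : ZFSet.{u}) = insert (num n) (num n) := by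
  rw [num, num, Nat.cast_succ, Ordinal.toZFSet_add_one]

theorem dom_fs (f : ℕ → ZFSet.{u}) (n : ℕ) : dom (fs f n) = num n := by
  ext x
  rw [mem_dom, mem_num]
  constructor
  · rintro ⟨y, hy⟩
    obtain ⟨i, hi, e⟩ := mem_fs.1 hy
    exact ⟨i, hi, (pair_inj.1 e).1⟩
  · rintro ⟨i, hi, rfl⟩
    exact ⟨f i, mem_fs.2 ⟨i, hi, rfl⟩⟩

/-- append one term -/
noncomputable def ext (s c : ZFSet.{u}) : ZFSet.{u} := insert (pair (dom s) c) s

theorem fs_succ (f : ℕ → ZFSet.{u}) (n : ℕ) : fs f (n + 1) = ext (fs f n) (f n) := by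
  ext z
  rw [ext, mem_insert_iff, dom_fs, mem_fs, mem_fs]
  constructor
  · rintro ⟨i, hi, rfl⟩
    rcases Nat.lt_succ_iff_lt_or_eq.1 hi with h | rfl
    · exact Or.inr ⟨i, h, rfl⟩
    · exact Or.inl rfl
  · rintro (rfl | ⟨i, hi, rfl⟩)
    · exact ⟨n, by omega, rfl⟩
    · exact ⟨i, by omega, rfl⟩

theorem app_fs {f : ℕ → ZFSet.{u}} {n i : ℕ} (h : i < n) : app (fs f n) (num i) = f i := by
  refine app_eq (mem_fs.2 ⟨i, h, rfl⟩) fun y hy => ?_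
  obtain ⟨j, _, e⟩ := mem_fs.1 hy
  obtain ⟨e1, e2⟩ := pair_inj.1 e
  rw [e2, num_inj.1 e1]

theorem fs_inj {f g : ℕ → ZFSet.{u}} {n m : ℕ} (h : fs f n = fs g m) :
    n = m ∧ ∀ i < n, f i = g i := by
  have h1 : n = m := by
    have := dom_fs f n
    rw [h, dom_fs, num_inj] at this
    exact this.symm
  subst h1
  exact ⟨rfl, fun i hi => by rw [← app_fs (f := f) hi, h, app_fs hi]⟩

theorem restr_fs {f : ℕ → ZFSet.{u}} {n k : ℕ} (h : k ≤ n) :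
    restr (fs f n) (num k) = fs f k := by
  ext z
  rw [mem_restr, mem_fs, mem_fs]
  constructor
  · rintro ⟨⟨i, hi, rfl⟩, x, hx, y, e⟩
    obtain ⟨j, hj, rfl⟩ := mem_num.1 hx
    obtain ⟨e1, _⟩ := pair_inj.1 e
    rw [num_inj] at e1
    subst e1
    exact ⟨i, hj, rfl⟩
  · rintro ⟨i, hi, rfl⟩
    exact ⟨⟨i, by omega, rfl⟩, _, mem_num.2 ⟨i, hi, rfl⟩, _, rfl⟩

/-- extension of a finite sequence -/
noncomputable def extF {n : ℕ} (g : Fin n → ZFSet.{u}) : ℕ → ZFSet.{u} :=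
  fun i => if h : i < n then g ⟨i, h⟩ else ∅

theorem extF_lt {n : ℕ} (g : Fin n → ZFSet.{u}) {i : ℕ} (h : i < n) : extF g i = g ⟨i, h⟩ := by
  rw [extF, dif_pos h]

theorem finSeq_eq_fs {n : ℕ} (g : Fin n → ZFSet.{u}) : finSeq g = fs (extF g) n := by
  rw [fs]
  congr 1
  ext1 i
  rw [extF_lt g i.2]

/-! ### definability of finite sequences -/

def IsFS (A s n : ZFSet.{u}) : Prop :=
  (∀ z ∈ s, ∃ i ∈ n, ∃ a ∈ A, z = pair i a) ∧
    ∀ i ∈ n, ∃ a ∈ A, pair i a ∈ s ∧ ∀ b ∈ A, pair i b ∈ s → b = a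

theorem isFS_iff {A s : ZFSet.{u}} {n : ℕ} :
    IsFS A s (num n) ↔ ∃ f : ℕ → ZFSet.{u}, (∀ i < n, f i ∈ A) ∧ s = fs f n := by
  constructor
  · rintro ⟨h1, h2⟩
    choose f hf using fun i : Fin n => h2 (num i) (mem_num.2 ⟨i, i.2, rfl⟩)
    refine ⟨extF f, fun i hi => ?_, ?_⟩
    · rw [extF_lt f hi]; exact (hf _).1
    · ext z
      rw [mem_fs]
      constructor
      · intro hz
        obtain ⟨i, hi, a, ha, rfl⟩ := h1 z hz
        obtain ⟨i, hi', rfl⟩ := mem_num.1 hi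
        refine ⟨i, hi', ?_⟩
        rw [extF_lt f hi', (hf ⟨i, hi'⟩).2.2 a ha hz]
      · rintro ⟨i, hi, rfl⟩
        rw [extF_lt f hi]
        exact (hf ⟨i, hi⟩).2.1
  · rintro ⟨f, hf, rfl⟩
    refine ⟨fun z hz => ?_, fun x hx => ?_⟩
    · obtain ⟨i, hi, rfl⟩ := mem_fs.1 hz
      exact ⟨_, mem_num.2 ⟨i, hi, rfl⟩, _, hf i hi, rfl⟩
    · obtain ⟨i, hi, rfl⟩ := mem_num.1 hx
      refine ⟨f i, hf i hi, mem_fs.2 ⟨i, hi, rfl⟩, fun b _ hb => ?_⟩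
      obtain ⟨j, _, e⟩ := mem_fs.1 hb
      obtain ⟨e1, e2⟩ := pair_inj.1 e
      rw [e2, num_inj.1 e1]

section good
variable {M : Set ZFSet.{u}} (hM : Good M)
include hM

theorem LD.isFS {S T U : (ℕ → ZFSet.{u}) → ZFSet.{u}} (hS : LF M S) (hT : LF M T) (hU : LF M U) :
    LD M (fun v => IsFS (S v) (T v) (U v)) := by
  refine LD.comp3 (P := IsFS) ?_ hS hT hU
  refine LD.and ?_ ?_
  · refine LD.ball hM (P := fun z v => ∃ i ∈ v 2, ∃ a ∈ v 0, z = pair i a) (LF.var 1) ?_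
    refine LD.bex hM (P := fun i v => ∃ a ∈ v 1, v 0 = pair i a) (LF.var 3) ?_
    refine LD.bex hM (P := fun a v => v 1 = pair (v 0) a) (LF.var 2) ?_
    exact LD.eq (LF.var 2) (LF.pair hM (LF.var 1) (LF.var 0))
  · refine LD.ball hM (P := fun i v => ∃ a ∈ v 0, pair i a ∈ v 1 ∧
      ∀ b ∈ v 0, pair i b ∈ v 1 → b = a) (LF.var 2) ?_
    refine LD.bex hM (P := fun a v => pair (v 0) a ∈ v 2 ∧
      ∀ b ∈ v 1, pair (v 0) b ∈ v 2 → b = a) (LF.var 1) ?_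
    refine LD.and (LD.mem (LF.pair hM (LF.var 1) (LF.var 0)) (LF.var 3)) ?_
    refine LD.ball hM (P := fun b v => pair (v 1) b ∈ v 3 → b = v 0) (LF.var 2) ?_
    exact (LD.mem (LF.pair hM (LF.var 2) (LF.var 0)) (LF.var 4)).imp (LD.eq_var 0 1)

theorem Good.fs_mem {f : ℕ → ZFSet.{u}} {n : ℕ} (h : ∀ i < n, f i ∈ M) : fs f n ∈ M := by
  induction n with
  | zero => rw [fs_zero]; exact hM.empty_mem
  | succ n ih =>
    rw [fs_succ, ext, dom_fs]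
    exact hM.insert_mem (hM.pair_mem (hM.num_mem n) (h n (by omega)))
      (ih fun i hi => h i (by omega))

theorem LF.ext {S T : (ℕ → ZFSet.{u}) → ZFSet.{u}} (hS : LF M S) (hT : LF M T) :
    LF M (fun v => ext (S v) (T v)) :=
  LF.insert hM (LF.pair hM (LF.dom hM hS) hT) hS

/-- closure of a good class under separation, with a predicate in one variable and parameters -/
theorem Good.sep_mem {A : ZFSet.{u}} (hA : A ∈ M) {P : ZFSet.{u} → Prop}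
    (hP : LD M (fun v => P (v 0))) : A.sep P ∈ M :=
  (LF.sep hM (P := fun x _ => P x) (LF.const hA) hP).1 (fun _ => A) (fun _ => hA)

end good

/-! ### trees of positions -/

section tree

variable (hM : Good (L : Set ZFSet.{u})) {C σ x : ZFSet.{u}}

/-- the tree of all finite sequences of elements of `C` against which `σ` never covers `x` -/
noncomputable def Tr (C σ x : ZFSet.{u}) : ZFSet.{u} :=
  (powerset (prod om C)).sep (fun s => s ∈ (L : Set ZFSet.{u}) ∧ ∃ n ∈ (om : ZFSet.{u}), IsFS C s n ∧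
    ∀ k ∈ n, ∀ U ∈ ran σ, pair (restr s (insert k k)) U ∈ σ → x ∉ U)

theorem mem_Tr (hC : C ∈ L) {s : ZFSet.{u}} : s ∈ Tr C σ x ↔
    ∃ (f : ℕ → ZFSet.{u}) (n : ℕ), (∀ i < n, f i ∈ C) ∧ s = fs f n ∧
      ∀ k < n, ∀ U, pair (fs f (k + 1)) U ∈ σ → x ∉ U := by
  rw [Tr, mem_sep]
  constructor
  · rintro ⟨_, _, n, hn, hfs, h⟩
    obtain ⟨n, rfl⟩ := mem_om.1 hn
    obtain ⟨f, hf, rfl⟩ := isFS_iff.1 hfs
    refine ⟨f, n, hf, rfl, fun k hk U hU => ?_⟩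
    refine h (num k) (mem_num.2 ⟨k, hk, rfl⟩) U (mem_ran.2 ⟨_, hU⟩) ?_
    rw [← num_succ, restr_fs (by omega)]
    exact hU
  · rintro ⟨f, n, hf, rfl, h⟩
    refine ⟨?_, ?_, num n, num_mem_om n, isFS_iff.2 ⟨f, hf, rfl⟩, ?_⟩
    · rw [mem_powerset]
      intro z hz
      obtain ⟨i, hi, rfl⟩ := mem_fs.1 hz
      exact pair_mem_prod.2 ⟨num_mem_om i, hf i hi⟩
    · exact good_L.fs_mem fun i hi => L_trans hC (hf i hi)
    · intro x hx U _ hU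
      obtain ⟨k, hk, rfl⟩ := mem_num.1 hx
      rw [← num_succ, restr_fs (by omega)] at hU
      exact h k hk U hU

theorem Tr_mem (hC : C ∈ L) (hσ : σ ∈ L) (hx : x ∈ L) : Tr C σ x ∈ L := by
  have hM := good_L.{u}
  refine hM.sep (fun s _ => ∃ n ∈ (om : ZFSet.{u}), IsFS C s n ∧
    ∀ k ∈ n, ∀ U ∈ ran σ, pair (restr s (insert k k)) U ∈ σ → x ∉ U) ?_ (fun _ => ∅)
    (fun _ => hM.empty_mem) _ ?_ ?_
  · refine LD.bex hM (P := fun n v => IsFS C (v 0) n ∧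
      ∀ k ∈ n, ∀ U ∈ ran σ, pair (restr (v 0) (insert k k)) U ∈ σ → x ∉ U)
      (LF.const hM.om_mem) ?_
    refine LD.and (LD.isFS hM (LF.const hC) (LF.var 1) (LF.var 0)) ?_
    refine LD.ball hM (P := fun k v =>
      ∀ U ∈ ran σ, pair (restr (v 1) (insert k k)) U ∈ σ → x ∉ U) (LF.var 0) ?_
    refine LD.ball hM (P := fun U v =>
      pair (restr (v 2) (insert (v 0) (v 0))) U ∈ σ → x ∉ U) (LF.ran hM (LF.const hσ)) ?_
    refine LD.imp ?_ (LD.mem (LF.const hx) (LF.var 0)).not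
    exact LD.mem (LF.pair hM (LF.restr hM (LF.var 3) (LF.insert hM (LF.var 1) (LF.var 1)))
      (LF.var 0)) (LF.const hσ)
  · intro z hz
    exact (mem_sep.1 hz).2.1
  · intro z hz
    rw [Tr, mem_sep]
    constructor
    · rintro ⟨_, _, h⟩; exact h
    · intro h
      refine ⟨?_, hz, h⟩
      obtain ⟨n, hn, hfs, _⟩ := h
      obtain ⟨n, rfl⟩ := mem_om.1 hn
      obtain ⟨f, hf, rfl⟩ := isFS_iff.1 hfs
      rw [mem_powerset]
      intro z hz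
      obtain ⟨i, hi, rfl⟩ := mem_fs.1 hz
      exact pair_mem_prod.2 ⟨num_mem_om i, hf i hi⟩

/-- the recursion defining nodes of rank at most `o` -/
noncomputable def rkG (T C _p h : ZFSet.{u}) : ZFSet.{u} :=
  T.sep (fun s => ∀ c ∈ C, ext s c ∈ T → ∃ β ∈ dom h, ext s c ∈ app h β)

theorem LF_rkG {T C : ZFSet.{u}} (hT : T ∈ L) (hC : C ∈ L) :
    LF L (fun v => rkG T C (v 0) (v 1)) := by
  have hM := good_L.{u}
  refine LF.sep hM (P := fun s v => ∀ c ∈ C, MPd14747.ext s c ∈ T → ∃ β ∈ dom (v 1),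
    MPd14747.ext s c ∈ app (v 1) β) (LF.const hT) ?_
  refine LD.ball hM (P := fun c v => MPd14747.ext (v 0) c ∈ T → ∃ β ∈ dom (v 2),
    MPd14747.ext (v 0) c ∈ app (v 2) β) (LF.const hC) ?_
  refine (LD.mem (LF.ext hM (LF.var 1) (LF.var 0)) (LF.const hT)).imp ?_
  refine LD.bex hM (P := fun β v => MPd14747.ext (v 1) (v 0) ∈ app (v 3) β)
    (LF.dom hM (LF.var 3)) ?_
  exact LD.mem (LF.ext hM (LF.var 2) (LF.var 1)) (LF.app hM (LF.var 4) (LF.var 0))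

noncomputable def Zs (T C : ZFSet.{u}) (o : Ordinal.{u}) : ZFSet.{u} := recF (rkG T C) ∅ o

theorem mem_Zs {T C s : ZFSet.{u}} {o : Ordinal.{u}} : s ∈ Zs T C o ↔
    s ∈ T ∧ ∀ c ∈ C, ext s c ∈ T → ∃ β < o, ext s c ∈ Zs T C β := by
  rw [Zs, recF_eq, rkG, mem_sep, dom_recH]
  refine and_congr_right fun _ => forall_congr' fun c => imp_congr_right fun _ =>
    imp_congr_right fun _ => ?_
  constructor
  · rintro ⟨x, hx, h⟩
    obtain ⟨β, hβ, rfl⟩ := Ordinal.mem_toZFSet_iff.1 hx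
    rw [app_recH _ hβ] at h
    exact ⟨β, hβ, h⟩
  · rintro ⟨β, hβ, h⟩
    refine ⟨β.toZFSet, Ordinal.toZFSet_mem_toZFSet_iff.2 hβ, ?_⟩
    rw [app_recH _ hβ]
    exact h

theorem Zs_mono {T C : ZFSet.{u}} {a b : Ordinal.{u}} (h : a ≤ b) : Zs T C a ⊆ Zs T C b := by
  intro s hs
  rw [mem_Zs] at hs ⊢
  refine ⟨hs.1, fun c hc he => ?_⟩
  obtain ⟨β, hβ, h1⟩ := hs.2 c hc he
  exact ⟨β, hβ.trans_le h, h1⟩

theorem exists_bound (T C : ZFSet.{u}) : ∃ κ : Ordinal.{u}, ∀ o, Zs T C o ⊆ Zs T C κ := by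
  classical
  have : Small.{u} (T : Set ZFSet.{u}) := small_coe T
  refine ⟨⨆ s : (T : Set ZFSet.{u}), if h : ∃ o, s.1 ∈ Zs T C o then Classical.choose h else 0,
    fun o s hs => ?_⟩
  have hsT : s ∈ T := (mem_Zs.1 hs).1
  have hex : ∃ o, s ∈ Zs T C o := ⟨o, hs⟩
  have h1 := Ordinal.le_iSup (fun s : (T : Set ZFSet.{u}) =>
    if h : ∃ o, s.1 ∈ Zs T C o then Classical.choose h else 0) ⟨s, hsT⟩
  refine Zs_mono h1 ?_
  simp only
  rw [dif_pos hex]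
  exact Classical.choose_spec hex

/-- the ill-founded part of `T` -/
theorem exists_pruned {T C : ZFSet.{u}} (hT : T ∈ L) (hC : C ∈ L)
    (f : ℕ → ZFSet.{u}) (hf : ∀ n, f n ∈ C) (hfT : ∀ n, fs f n ∈ T) :
    ∃ W ∈ L, W ⊆ T ∧ ∅ ∈ W ∧ ∀ s ∈ W, ∃ c ∈ C, ext s c ∈ W := by
  obtain ⟨κ, hκ⟩ := exists_bound T C
  have hZ : Zs T C κ ∈ L := good_L.recF_mem _ (LF_rkG hT hC) good_L.empty_mem κ
  refine ⟨T.sep (fun s => s ∉ Zs T C κ), ?_, sep_subset, ?_, ?_⟩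
  · exact good_L.sep_mem hT (LD.mem (LF.var 0) (LF.const hZ)).not
  · rw [mem_sep]
    refine ⟨by have := hfT 0; rwa [fs_zero] at this, ?_⟩
    have key : ∀ (o : Ordinal.{u}) (n : ℕ), fs f n ∉ Zs T C o := by
      intro o
      induction o using WellFoundedLT.induction with
      | _ o ih =>
        intro n hn
        obtain ⟨β, hβ, h⟩ := (mem_Zs.1 hn).2 (f n) (hf n) (by rw [← fs_succ]; exact hfT _)
        rw [← fs_succ] at h
        exact ih β hβ _ h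
    have := key κ 0
    rwa [fs_zero] at this
  · intro s hs
    rw [mem_sep] at hs
    have h1 : s ∉ Zs T C (κ + 1) := fun h => hs.2 (hκ _ h)
    rw [mem_Zs] at h1
    push Not at h1
    obtain ⟨c, hc, hcT, h2⟩ := h1 hs.1
    exact ⟨c, hc, mem_sep.2 ⟨hcT, h2 κ (Order.lt_add_one_iff.2 le_rfl)⟩⟩

/-- the leftmost branch -/
noncomputable def brG (W C cd _p h : ZFSet.{u}) : ZFSet.{u} :=
  sUnion (C.sep (fun c => ext h c ∈ W ∧ ∀ c' ∈ C, ext h c' ∈ W → app cd c ⊆ app cd c'))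

theorem LF_brG {W C cd : ZFSet.{u}} (hW : W ∈ L) (hC : C ∈ L) (hcd : cd ∈ L) :
    LF L (fun v => brG W C cd (v 0) (v 1)) := by
  have hM := good_L.{u}
  refine LF.sUnion hM (LF.sep hM (P := fun c v => MPd14747.ext (v 1) c ∈ W ∧
    ∀ c' ∈ C, MPd14747.ext (v 1) c' ∈ W → app cd c ⊆ app cd c') (LF.const hC) ?_)
  refine (LD.mem (LF.ext hM (LF.var 2) (LF.var 0)) (LF.const hW)).and ?_
  refine LD.ball hM (P := fun c' v => MPd14747.ext (v 2) c' ∈ W → app cd (v 0) ⊆ app cd c')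
    (LF.const hC) ?_
  refine (LD.mem (LF.ext hM (LF.var 3) (LF.var 0)) (LF.const hW)).imp ?_
  exact LD.subset hM (LF.app hM (LF.const hcd) (LF.var 1)) (LF.app hM (LF.const hcd) (LF.var 0))

theorem brG_spec {W C cd p h : ZFSet.{u}} (hcd : IsCodeFn cd) (hC : C ⊆ dom cd)
    (hh : ∃ c ∈ C, ext h c ∈ W) : brG W C cd p h ∈ C ∧ ext h (brG W C cd p h) ∈ W := by
  -- least code
  have hne : {o : Ordinal.{u} | ∃ c ∈ C, ext h c ∈ W ∧ app cd c = o.toZFSet}.Nonempty := by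
    obtain ⟨c, hc, hcW⟩ := hh
    obtain ⟨o, ho⟩ := isOrdinal_iff_mem_range_toZFSet.1 (hcd.1 c (hC hc))
    exact ⟨o, c, hc, hcW, ho.symm⟩
  obtain ⟨c, hc, hcW, ho⟩ := csInf_mem hne
  have hmin : ∀ c' ∈ C, ext h c' ∈ W → app cd c ⊆ app cd c' := by
    intro c' hc' hc'W
    obtain ⟨o', ho'⟩ := isOrdinal_iff_mem_range_toZFSet.1 (hcd.1 c' (hC hc'))
    rw [ho, ← ho', Ordinal.toZFSet_subset_toZFSet_iff]
    exact csInf_le' ⟨c', hc', hc'W, ho'.symm⟩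
  have hs : C.sep (fun c => ext h c ∈ W ∧ ∀ c' ∈ C, ext h c' ∈ W → app cd c ⊆ app cd c') =
      {c} := by
    ext z
    rw [mem_sep, mem_singleton]
    constructor
    · rintro ⟨hz, hzW, hzm⟩
      exact hcd.2 z (hC hz) c (hC hc) (subset_antisymm (hzm c hc hcW) (hmin z hz hzW))
    · rintro rfl
      exact ⟨hc, hcW, hmin⟩
  rw [brG, hs, sUnion_singleton]
  exact ⟨hc, hcW⟩

theorem exists_branch {W C : ZFSet.{u}} (hW : W ∈ L) (hC : C ∈ L) (h0 : ∅ ∈ W)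
    (hstep : ∀ s ∈ W, ∃ c ∈ C, ext s c ∈ W) :
    ∃ f : ℕ → ZFSet.{u}, omegaSeq f ∈ (L : Set ZFSet.{u}) ∧ (∀ n, f n ∈ C) ∧ ∀ n, fs f n ∈ W := by
  obtain ⟨o, ho⟩ := hC
  obtain ⟨h1, h2⟩ := stF_spec good_L o
  have hcdL : stF L o ∈ (L : Set ZFSet.{u}) := good_L.stF_mem o
  have hsub : C ⊆ dom (stF L o) := by
    rw [h2]
    intro c hc
    exact Lstage_trans ho hc
  let G := brG W C (stF L o)
  let f : ℕ → ZFSet.{u} := fun n => recF G ∅ n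
  have hH : ∀ n : ℕ, recH G ∅ n = fs f n := by
    intro n
    ext z
    rw [mem_recH, mem_fs]
    constructor
    · rintro ⟨a, ha, rfl⟩
      obtain ⟨k, rfl⟩ := Ordinal.lt_omega0.1 (ha.trans (Ordinal.natCast_lt_omega0 n))
      exact ⟨k, Nat.cast_lt.1 ha, rfl⟩
    · rintro ⟨i, hi, rfl⟩
      exact ⟨i, Nat.cast_lt.2 hi, rfl⟩
  have hf : ∀ n : ℕ, f n = G ∅ (fs f n) := by
    intro n
    rw [← hH]
    exact recF_eq G ∅ n
  have key : ∀ n, fs f n ∈ W := by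
    intro n
    induction n with
    | zero => rw [fs_zero]; exact h0
    | succ n ih =>
      rw [fs_succ, hf n]
      exact (brG_spec h1 hsub (hstep _ ih)).2
  refine ⟨f, ?_, fun n => ?_, key⟩
  · have : omegaSeq f = recH G ∅ Ordinal.omega0 := by
      ext z
      rw [mem_recH, mem_omegaSeq]
      constructor
      · rintro ⟨n, rfl⟩
        exact ⟨n, Ordinal.natCast_lt_omega0 n, rfl⟩
      · rintro ⟨a, ha, rfl⟩
        obtain ⟨k, rfl⟩ := Ordinal.lt_omega0.1 ha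
        exact ⟨k, rfl⟩
    rw [this]
    exact good_L.recH_mem G (LF_brG hW ⟨o, ho⟩ hcdL) good_L.empty_mem _
  · rw [hf n]
    exact (brG_spec h1 hsub (hstep _ (key n))).1

end tree

/-! ### the game -/

section game

variable {X τ σ : ZFSet.{u}}

/-- the set of all open covers in `L` -/
noncomputable def Cov (X τ : ZFSet.{u}) : ZFSet.{u} :=
  (powerset τ).sep (fun 𝒰 => 𝒰 ∈ (L : Set ZFSet.{u}) ∧ sUnion 𝒰 = X)

theorem mem_Cov {𝒰 : ZFSet.{u}} : 𝒰 ∈ Cov X τ ↔ IsOpenCoverIn L X τ 𝒰 := by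
  rw [Cov, mem_sep, mem_powerset, IsOpenCoverIn]
  tauto

theorem Cov_mem (hX : X ∈ L) (hτ : τ ∈ L) : Cov X τ ∈ L := by
  have hM := good_L.{u}
  refine hM.sep (fun 𝒰 _ => 𝒰 ⊆ τ ∧ sUnion 𝒰 = X) ?_ (fun _ => ∅) (fun _ => hM.empty_mem) _ ?_ ?_
  · exact (LD.subset hM (LF.var 0) (LF.const hτ)).and
      (LD.eq (LF.sUnion hM (LF.var 0)) (LF.const hX))
  · intro z hz
    exact (mem_Cov.1 hz).1
  · intro z hz
    rw [mem_Cov, IsOpenCoverIn]
    tauto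

variable (hX : X ∈ L) (hτ : τ ∈ L) (hσ : IsStrategyIn L X τ σ) (hwin : IsWinningIn L X τ σ)
include hX hτ hσ

omit hX hτ hσ in
theorem position_fs {f : ℕ → ZFSet.{u}} {n : ℕ} (hf : ∀ i < n + 1, f i ∈ Cov X τ) :
    IsPositionIn L X τ (fs f (n + 1)) (f n) := by
  refine ⟨good_L.fs_mem fun i hi => (mem_Cov.1 (hf i hi)).1, n, fun i => f i,
    fun i => mem_Cov.1 (hf i i.2), rfl, ?_⟩
  simp

theorem strat_ext {f : ℕ → ZFSet.{u}} {n : ℕ} (hf : ∀ i < n, f i ∈ Cov X τ) {c : ZFSet.{u}}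
    (hc : c ∈ Cov X τ) :
    (∃! U, pair (ext (fs f n) c) U ∈ σ) ∧ ∀ U, pair (ext (fs f n) c) U ∈ σ → U ∈ c := by
  let g : ℕ → ZFSet.{u} := fun i => if i < n then f i else c
  have e1 : fs g n = fs f n := fs_congr fun i hi => by simp [g, hi]
  have e2 : g n = c := by simp [g]
  have e3 : ext (fs f n) c = fs g (n + 1) := by rw [fs_succ, e1, e2]
  have hpos := position_fs (X := X) (τ := τ) (f := g) (n := n) (fun i hi => by
    by_cases h : i < n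
    · simp only [g, if_pos h]; exact hf i h
    · simp only [g, if_neg h]; exact hc)
  rw [e2] at hpos
  rw [e3]
  exact hσ.2.2 _ _ hpos

/-- The key absoluteness fact: no infinite run in the universe beats `σ`. -/
theorem no_losing_run (hwin : IsWinningIn L X τ σ) {x : ZFSet.{u}} (hx : x ∈ X)
    (f : ℕ → ZFSet.{u}) (hf : ∀ n, f n ∈ Cov X τ) :
    ∃ n U, pair (fs f (n + 1)) U ∈ σ ∧ x ∈ U := by
  by_contra hcon
  push Not at hcon
  have hC := Cov_mem hX hτ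
  have hxL : x ∈ L := L_trans hX hx
  have hT : Tr (Cov X τ) σ x ∈ L := Tr_mem hC hσ.1 hxL
  have hfT : ∀ n, fs f n ∈ Tr (Cov X τ) σ x := fun n =>
    (mem_Tr hC).2 ⟨f, n, fun i _ => hf i, rfl, fun k _ U hU => hcon k U hU⟩
  obtain ⟨W, hW, hWT, h0, hstep⟩ := exists_pruned hT hC f hf hfT
  obtain ⟨g, hg, hgC, hgW⟩ := exists_branch hW hC h0 hstep
  obtain ⟨n, U, hU, hxU⟩ := hwin g hg (fun n => mem_Cov.1 (hgC n)) x hx
  obtain ⟨g', m, _, e, h⟩ := (mem_Tr hC).1 (hWT (hgW (n + 1)))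
  obtain ⟨rfl, e2⟩ := fs_inj e
  refine h n (by omega) U ?_ hxU
  rw [← fs_congr (f := g) (g := g') (fun i hi => e2 i hi)]
  exact hU

/-- good points -/
theorem exists_good_point (htop : ∀ U ∈ τ, U ⊆ X) {f : ℕ → ZFSet.{u}} {n : ℕ}
    (hf : ∀ i < n, f i ∈ Cov X τ) :
    ∃ x ∈ X, ∀ U ∈ τ, x ∈ U → ∃ c ∈ Cov X τ, pair (ext (fs f n) c) U ∈ σ := by
  by_contra hcon
  push Not at hcon
  have hM := good_L.{u}
  have hsL : fs f n ∈ L := good_L.fs_mem fun i hi => (mem_Cov.1 (hf i hi)).1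
  have hC := Cov_mem hX hτ
  let w := τ.sep (fun U => ∀ c ∈ Cov X τ, pair (ext (fs f n) c) U ∉ σ)
  have hwL : w ∈ L := by
    refine hM.sep_mem hτ ?_
    refine LD.ball hM (P := fun c v => pair (MPd14747.ext (fs f n) c) (v 0) ∉ σ)
      (LF.const hC) ?_
    exact (LD.mem (LF.pair hM (LF.ext hM (LF.const hsL) (LF.var 0)) (LF.var 1))
      (LF.const hσ.1)).not
  have hwC : w ∈ Cov X τ := by
    rw [mem_Cov]
    refine ⟨hwL, sep_subset, ?_⟩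
    ext x
    rw [mem_sUnion]
    constructor
    · rintro ⟨U, hU, hxU⟩
      exact htop U (mem_sep.1 hU).1 hxU
    · intro hx
      obtain ⟨U, hU, hxU, h⟩ := hcon x hx
      exact ⟨U, mem_sep.2 ⟨hU, h⟩, hxU⟩
  obtain ⟨⟨U, hU, _⟩, h2⟩ := strat_ext hX hτ hσ hf hwC
  exact (mem_sep.1 (h2 U hU)).2 w hwC hU

/-- one step of the strategy in `V` -/
def Step (X τ σ s 𝒱 c V : ZFSet.{u}) : Prop :=
  V ∈ 𝒱 ∧ c ∈ Cov X τ ∧ ∃ B, pair (ext s c) B ∈ σ ∧ B ⊆ V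

theorem exists_step (htop : ∀ U ∈ τ, U ⊆ X) {f : ℕ → ZFSet.{u}} {n : ℕ}
    (hf : ∀ i < n, f i ∈ Cov X τ) {𝒱 : ZFSet.{u}}
    (h𝒱 : IsOpenCoverIn Set.univ X (generatedTopology X τ) 𝒱) :
    ∃ c V, Step X τ σ (fs f n) 𝒱 c V := by
  obtain ⟨x, hx, hgood⟩ := exists_good_point hX hτ hσ htop hf
  obtain ⟨_, hsub, hun⟩ := h𝒱
  rw [← hun, mem_sUnion] at hx
  obtain ⟨V, hV, hxV⟩ := hx
  obtain ⟨_, hV2⟩ := mem_sep.1 (hsub hV)
  obtain ⟨B, hB, hxB, hBV⟩ := hV2 x hxV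
  obtain ⟨c, hc, hcB⟩ := hgood B hB hxB
  exact ⟨c, V, hV, hc, B, hcB, hBV⟩

end game

open Classical in
/-- chosen reaction -/
noncomputable def react (X τ σ s 𝒱 : ZFSet.{u}) : ZFSet.{u} × ZFSet.{u} :=
  if h : ∃ q : ZFSet.{u} × ZFSet.{u}, Step X τ σ s 𝒱 q.1 q.2 then Classical.choose h else (∅, ∅)

/-- simulated run in `L` -/
noncomputable def simS (X τ σ : ZFSet.{u}) (𝒱 : ℕ → ZFSet.{u}) : ℕ → ZFSet.{u}
  | 0 => ∅
  | n + 1 => ext (simS X τ σ 𝒱 n) (react X τ σ (simS X τ σ 𝒱 n) (𝒱 n)).1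

noncomputable def simC (X τ σ : ZFSet.{u}) (𝒱 : ℕ → ZFSet.{u}) (n : ℕ) : ZFSet.{u} :=
  (react X τ σ (simS X τ σ 𝒱 n) (𝒱 n)).1

noncomputable def simV (X τ σ : ZFSet.{u}) (𝒱 : ℕ → ZFSet.{u}) (n : ℕ) : ZFSet.{u} :=
  (react X τ σ (simS X τ σ 𝒱 n) (𝒱 n)).2

theorem simS_eq (X τ σ : ZFSet.{u}) (𝒱 : ℕ → ZFSet.{u}) (n : ℕ) :
    simS X τ σ 𝒱 n = fs (simC X τ σ 𝒱) n := by
  induction n with
  | zero => rw [fs_zero]; rfl
  | succ n ih =>
    rw [fs_succ, ← ih]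
    rfl

theorem simS_congr {X τ σ : ZFSet.{u}} {𝒱 𝒱' : ℕ → ZFSet.{u}} {n : ℕ}
    (h : ∀ i < n, 𝒱 i = 𝒱' i) : simS X τ σ 𝒱 n = simS X τ σ 𝒱' n := by
  induction n with
  | zero => rfl
  | succ n ih =>
    have h1 := ih fun i hi => h i (by omega)
    rw [simS, simS, h1, h n (by omega)]

theorem simV_congr {X τ σ : ZFSet.{u}} {𝒱 𝒱' : ℕ → ZFSet.{u}} {n : ℕ}
    (h : ∀ i < n + 1, 𝒱 i = 𝒱' i) : simV X τ σ 𝒱 n = simV X τ σ 𝒱' n := by
  rw [simV, simV, simS_congr (fun i hi => h i (by omega)), h n (by omega)]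

section game2

variable {X τ σ : ZFSet.{u}}
variable (hX : X ∈ L) (hτ : τ ∈ L) (hσ : IsStrategyIn L X τ σ) (htop : ∀ U ∈ τ, U ⊆ X)
include hX hτ hσ htop

theorem sim_spec (𝒱 : ℕ → ZFSet.{u}) (n : ℕ)
    (h𝒱 : ∀ i < n + 1, IsOpenCoverIn Set.univ X (generatedTopology X τ) (𝒱 i)) :
    (∀ i < n + 1, simC X τ σ 𝒱 i ∈ Cov X τ) ∧
      Step X τ σ (simS X τ σ 𝒱 n) (𝒱 n) (simC X τ σ 𝒱 n) (simV X τ σ 𝒱 n) := by
  have step : ∀ m ≤ n, (∀ i < m, simC X τ σ 𝒱 i ∈ Cov X τ) →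
      Step X τ σ (simS X τ σ 𝒱 m) (𝒱 m) (simC X τ σ 𝒱 m) (simV X τ σ 𝒱 m) := by
    intro m hm hC
    obtain ⟨c, V, hs⟩ := exists_step hX hτ hσ htop hC (h𝒱 m (by omega))
    have hex : ∃ q : ZFSet.{u} × ZFSet.{u}, Step X τ σ (simS X τ σ 𝒱 m) (𝒱 m) q.1 q.2 := by
      rw [simS_eq]
      exact ⟨(c, V), hs⟩
    have := Classical.choose_spec hex
    rw [simC, simV, react, dif_pos hex]
    exact this
  have hC : ∀ m ≤ n + 1, ∀ i < m, simC X τ σ 𝒱 i ∈ Cov X τ := by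
    intro m
    induction m with
    | zero => intro _ i hi; omega
    | succ m ih =>
      intro hm i hi
      rcases Nat.lt_succ_iff_lt_or_eq.1 hi with h | rfl
      · exact ih (by omega) i h
      · exact (step i (by omega) (ih (by omega))).2.1
  exact ⟨hC (n + 1) le_rfl, step n le_rfl (hC n (by omega))⟩

end game2

/-- all open covers in `V` -/
noncomputable def CovV (X τ : ZFSet.{u}) : ZFSet.{u} :=
  (powerset (generatedTopology X τ)).sep (fun 𝒰 => sUnion 𝒰 = X)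

theorem mem_CovV {X τ 𝒰 : ZFSet.{u}} :
    𝒰 ∈ CovV X τ ↔ IsOpenCoverIn Set.univ X (generatedTopology X τ) 𝒰 := by
  rw [CovV, mem_sep, mem_powerset, IsOpenCoverIn]
  simp

/-- the strategy in `V` -/
noncomputable def stratV (X τ σ : ZFSet.{u}) : ZFSet.{u} :=
  haveI : Small.{u} (CovV X τ : Set ZFSet.{u}) := small_coe _
  range (fun q : (Σ n : ℕ, Fin (n + 1) → (CovV X τ : Set ZFSet.{u})) =>
    pair (finSeq (fun i => (q.2 i).1)) (simV X τ σ (extF (fun i => (q.2 i).1)) q.1))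

theorem mem_stratV {X τ σ z : ZFSet.{u}} : z ∈ stratV X τ σ ↔
    ∃ (n : ℕ) (g : Fin (n + 1) → ZFSet.{u}), (∀ i, g i ∈ CovV X τ) ∧
      z = pair (finSeq g) (simV X τ σ (extF g) n) := by
  have : Small.{u} (CovV X τ : Set ZFSet.{u}) := small_coe _
  rw [stratV, mem_range]
  constructor
  · rintro ⟨⟨n, g⟩, rfl⟩
    exact ⟨n, fun i => (g i).1, fun i => (g i).2, rfl⟩
  · rintro ⟨n, g, hg, rfl⟩
    exact ⟨⟨n, fun i => ⟨g i, hg i⟩⟩, rfl⟩

theorem finSeq_inj {n m : ℕ} {g : Fin (n + 1) → ZFSet.{u}} {g' : Fin (m + 1) → ZFSet.{u}}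
    (h : finSeq g = finSeq g') : n = m ∧ ∀ i < n + 1, extF g i = extF g' i := by
  rw [finSeq_eq_fs, finSeq_eq_fs] at h
  obtain ⟨h1, h2⟩ := fs_inj h
  exact ⟨by omega, h2⟩

/-- **Main theorem.** -/
theorem rothberger_absolute {X τ : ZFSet.{u}} (hX : X ∈ L) (hτ : τ ∈ L)
    (htop : ∀ U ∈ τ, U ⊆ X) (h : TwoWinsRothbergerIn L X τ) :
    TwoWinsRothbergerIn Set.univ X (generatedTopology X τ) := by
  obtain ⟨σ, hσ, hwin⟩ := h
  have hval : ∀ (n : ℕ) (g : Fin (n + 1) → ZFSet.{u}), (∀ i, g i ∈ CovV X τ) → ∀ U,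
      pair (finSeq g) U ∈ stratV X τ σ → U = simV X τ σ (extF g) n := by
    intro n g hg U hU
    obtain ⟨m, g', hg', e⟩ := mem_stratV.1 hU
    obtain ⟨e1, rfl⟩ := pair_inj.1 e
    obtain ⟨rfl, e2⟩ := finSeq_inj e1
    exact (simV_congr e2).symm
  refine ⟨stratV X τ σ, ⟨trivial, ?_, ?_⟩, ?_⟩
  · intro z hz
    obtain ⟨n, g, hg, rfl⟩ := mem_stratV.1 hz
    exact ⟨_, g (Fin.last n), _, ⟨trivial, n, g, fun i => mem_CovV.1 (hg i), rfl, rfl⟩, rfl⟩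
  · rintro s 𝒰 ⟨_, n, g, hg, rfl, rfl⟩
    have hg' : ∀ i, g i ∈ CovV X τ := fun i => mem_CovV.2 (hg i)
    refine ⟨⟨simV X τ σ (extF g) n, mem_stratV.2 ⟨n, g, hg', rfl⟩, fun U hU => hval n g hg' U hU⟩,
      fun U hU => ?_⟩
    rw [hval n g hg' U hU]
    have := (sim_spec hX hτ hσ htop (extF g) n (fun i hi => by
      rw [extF_lt g hi]; exact hg _)).2.1
    rw [extF_lt g (Nat.lt_succ_self n)] at this
    exact this
  · intro f _ hf x hx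
    have hspec := fun n => sim_spec hX hτ hσ htop f n (fun i _ => hf i)
    obtain ⟨n, U, hU, hxU⟩ := no_losing_run hX hτ hσ hwin hx (simC X τ σ f)
      (fun n => (hspec n).1 n (by omega))
    obtain ⟨_, _, B, hB, hBV⟩ := (hspec n).2
    have e : U = B := by
      rw [simS_eq] at hB
      rw [fs_succ] at hU
      exact (strat_ext hX hτ hσ (f := simC X τ σ f) (n := n) (fun i hi => (hspec i).1 i (by omega))
        ((hspec n).1 n (by omega))).1.unique hU hB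
    refine ⟨n, simV X τ σ f n, ?_, hBV (e ▸ hxU)⟩
    refine mem_stratV.2 ⟨n, fun i => f i, fun i => mem_CovV.2 (hf i), ?_⟩
    rw [simV_congr (𝒱' := extF (fun i : Fin (n + 1) => f i))]
    intro i hi
    rw [extF_lt _ hi]

end Pool.Agent.MPd14747
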