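import Pool.Agent.MPd14747.Stage

/-! The constructible universe is a good class (reflection). -/

open FirstOrder ZFSet

universe u

namespace Pool.Agent.MPd14747

theorem Lstage_mono {a b : Ordinal.{u}} (h : a ≤ b) : Lstage a ⊆ Lstage b := by
  intro x hx
  obtain ⟨c, hc, hx⟩ := mem_Lstage.1 hx
  exact mem_Lstage.2 ⟨c, hc.trans_le h, hx⟩

theorem Lstage_trans {o : Ordinal.{u}} {x y : ZFSet.{u}} (hx : x ∈ Lstage o) (hy : y ∈ x) :
    y ∈ Lstage o := by
  obtain ⟨c, hc, hx⟩ := mem_Lstage.1 hx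
  exact Lstage_mono hc.le ((mem_defPow.1 hx).1 hy)

theorem L_trans {x y : ZFSet.{u}} (hx : x ∈ L) (hy : y ∈ x) : y ∈ L := by
  obtain ⟨o, ho⟩ := hx
  exact ⟨o, Lstage_trans ho hy⟩

theorem Lstage_subset_L {o : Ordinal.{u}} {x : ZFSet.{u}} (hx : x ∈ Lstage o) : x ∈ L := ⟨o, hx⟩

theorem Lstage_mem_L (o : Ordinal.{u}) : Lstage o ∈ L := by
  refine ⟨o + 1, mem_Lstage.2 ⟨o, Order.lt_add_one_iff.2 le_rfl, mem_defPow.2 ⟨fun _ h => h, ?_⟩⟩⟩
  have : {x : ((Lstage o : ZFSet.{u}) : Set ZFSet.{u}) | (x : ZFSet.{u}) ∈ Lstage o} = Set.univ := by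
    ext x; simp only [Set.mem_univ, iff_true]; exact x.2
  rw [this]
  exact Set.definable_univ

/-- the inclusion of `L_o` in `L` -/
noncomputable def emb (o : Ordinal.{u}) :
    setLang.Embedding ((Lstage o : ZFSet.{u}) : Set ZFSet.{u}) (L : Set ZFSet.{u}) where
  toFun x := ⟨x.1, o, x.2⟩
  inj' x y h := Subtype.ext (Subtype.mk.inj h)
  map_fun' f _ := f.elim
  map_rel' := by
    intro n r x
    cases r
    exact Iff.rfl

theorem emb_val (o : Ordinal.{u}) (x : ((Lstage o : ZFSet.{u}) : Set ZFSet.{u})) :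
    (emb o x).1 = x.1 := rfl

noncomputable def lev (x : (L : Set ZFSet.{u})) : Ordinal.{u} := Classical.choose x.2

theorem mem_lev (x : (L : Set ZFSet.{u})) : x.1 ∈ Lstage (lev x) := Classical.choose_spec x.2

/-- indices for the closing-off argument -/
abbrev Idx (o : Ordinal.{u}) : Type (u + 1) :=
  Σ n : ℕ, (setLang.BoundedFormula Empty (n + 1)) × (Fin n → ((Lstage o : ZFSet.{u}) : Set ZFSet.{u}))

instance (o : Ordinal.{u}) : Small.{u} ((Lstage o : ZFSet.{u}) : Set ZFSet.{u}) :=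
  small_coe (Lstage o)

instance (o : Ordinal.{u}) : Small.{u} (Idx o) := by
  unfold Idx
  infer_instance

open Classical in
noncomputable def wit (o : Ordinal.{u}) (i : Idx o) : Ordinal.{u} :=
  if h : ∃ a : (L : Set ZFSet.{u}), i.2.1.Realize default (Fin.snoc (emb o ∘ i.2.2) a : _ → L)
  then lev (Classical.choose h) else 0

noncomputable def nxt (o : Ordinal.{u}) : Ordinal.{u} := max o (⨆ i : Idx o, wit o i)

theorem le_nxt (o : Ordinal.{u}) : o ≤ nxt o := le_max_left _ _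

theorem nxt_spec (o : Ordinal.{u}) {n : ℕ} (φ : setLang.BoundedFormula Empty (n + 1))
    (x : Fin n → ((Lstage o : ZFSet.{u}) : Set ZFSet.{u})) (a : (L : Set ZFSet.{u}))
    (h : φ.Realize default (Fin.snoc (emb o ∘ x) a : _ → L)) :
    ∃ b : (L : Set ZFSet.{u}), b.1 ∈ Lstage (nxt o) ∧
      φ.Realize default (Fin.snoc (emb o ∘ x) b : _ → L) := by
  have h' : ∃ a : (L : Set ZFSet.{u}), φ.Realize default (Fin.snoc (emb o ∘ x) a : _ → L) := ⟨a, h⟩
  refine ⟨Classical.choose h', ?_, Classical.choose_spec h'⟩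
  have e : wit o ⟨n, φ, x⟩ = lev (Classical.choose h') := by
    rw [wit, dif_pos h']
  refine Lstage_mono ?_ (mem_lev _)
  rw [← e]
  exact (Ordinal.le_iSup (fun i : Idx o => wit o i) ⟨n, φ, x⟩).trans (le_max_right _ _)

noncomputable def itn (o : Ordinal.{u}) : ℕ → Ordinal.{u}
  | 0 => o
  | n + 1 => nxt (itn o n)

theorem itn_mono (o : Ordinal.{u}) : Monotone (itn o) :=
  monotone_nat_of_le_succ fun n => le_nxt (itn o n)

noncomputable def lim (o : Ordinal.{u}) : Ordinal.{u} := ⨆ n, itn o n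

theorem itn_le_lim (o : Ordinal.{u}) (n : ℕ) : itn o n ≤ lim o := Ordinal.le_iSup (itn o) n

theorem le_lim (o : Ordinal.{u}) : o ≤ lim o := itn_le_lim o 0

theorem mem_Lstage_lim {o : Ordinal.{u}} {x : ZFSet.{u}} (h : x ∈ Lstage (lim o)) :
    ∃ n, x ∈ Lstage (itn o n) := by
  obtain ⟨c, hc, hx⟩ := mem_Lstage.1 h
  obtain ⟨n, hn⟩ := (Ordinal.lt_iSup_iff).1 hc
  exact ⟨n, mem_Lstage.2 ⟨c, hn, hx⟩⟩

/-- `L_{lim o}` is an elementary substructure of `L`. -/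
theorem emb_tv (o : Ordinal.{u}) (n : ℕ) (φ : setLang.BoundedFormula Empty (n + 1))
    (x : Fin n → ((Lstage (lim o) : ZFSet.{u}) : Set ZFSet.{u})) (a : (L : Set ZFSet.{u}))
    (h : φ.Realize default (Fin.snoc (emb (lim o) ∘ x) a : _ → L)) :
    ∃ b : ((Lstage (lim o) : ZFSet.{u}) : Set ZFSet.{u}),
      φ.Realize default (Fin.snoc (emb (lim o) ∘ x) (emb (lim o) b) : _ → L) := by
  choose m hm using fun i => mem_Lstage_lim (x i).2
  obtain ⟨N, hN⟩ : ∃ N, ∀ i, m i ≤ N := ⟨Finset.univ.sup m, fun i => Finset.le_sup (Finset.mem_univ i)⟩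
  have hx : ∀ i, (x i).1 ∈ Lstage (itn o N) := fun i => Lstage_mono (itn_mono o (hN i)) (hm i)
  have e : emb (lim o) ∘ x = emb (itn o N) ∘ (fun i => ⟨(x i).1, hx i⟩) := by
    ext1 i; rfl
  rw [e] at h ⊢
  obtain ⟨b, hb, hφ⟩ := nxt_spec _ φ _ a h
  exact ⟨⟨b.1, Lstage_mono (itn_le_lim o (N + 1)) hb⟩, hφ⟩

noncomputable def eemb (o : Ordinal.{u}) :
    setLang.ElementaryEmbedding ((Lstage (lim o) : ZFSet.{u}) : Set ZFSet.{u})
      (L : Set ZFSet.{u}) :=
  (emb (lim o)).toElementaryEmbedding (emb_tv o)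

theorem L_sep (P : ZFSet.{u} → (ℕ → ZFSet.{u}) → Prop)
    (hP : LD L (fun v => P (v 0) (fun n => v (n + 1)))) (v : ℕ → ZFSet.{u}) (hv : EnvIn L v)
    (y : ZFSet.{u}) (hy : ∀ z ∈ y, z ∈ L) (hyP : ∀ z ∈ L, (z ∈ y ↔ P z v)) : y ∈ L := by
  classical
  unfold LD at hP
  rw [Set.definable_iff_exists_formula_sum] at hP
  obtain ⟨φ, hφ⟩ := hP
  -- parameters
  let w : (Set.univ : Set (L : Set ZFSet.{u})) ⊕ ℕ → (L : Set ZFSet.{u}) :=
    Sum.elim (fun a => a.1) (fun n => ⟨v (n - 1), hv _⟩)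
  let o1 : Ordinal.{u} := ⨆ z : (y : Set ZFSet.{u}), lev ⟨z.1, hy z.1 z.2⟩
  let o2 : Ordinal.{u} := ⨆ i : φ.freeVarFinset, lev (w i.1)
  have : Small.{u} (y : Set ZFSet.{u}) := small_coe y
  let o := max o1 o2
  have h1 : ∀ z ∈ y, z ∈ Lstage (lim o) := by
    intro z hz
    refine Lstage_mono ?_ (mem_lev ⟨z, hy z hz⟩)
    exact ((Ordinal.le_iSup (fun z : (y : Set ZFSet.{u}) => lev ⟨z.1, hy z.1 z.2⟩) ⟨z, hz⟩).trans
      (le_max_left o1 o2)).trans (le_lim o)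
  have h2 : ∀ i ∈ φ.freeVarFinset, (w i).1 ∈ Lstage (lim o) := by
    intro i hi
    refine Lstage_mono ?_ (mem_lev _)
    exact ((Ordinal.le_iSup (fun i : φ.freeVarFinset => lev (w i.1)) ⟨i, hi⟩).trans
      (le_max_right o1 o2)).trans (le_lim o)
  refine ⟨lim o + 1, mem_Lstage.2 ⟨lim o, Order.lt_add_one_iff.2 le_rfl,
    mem_defPow.2 ⟨fun z hz => h1 z hz, ?_⟩⟩⟩
  rw [Set.Definable₁, Set.definable_iff_exists_formula_sum]
  let f : φ.freeVarFinset →
      (Set.univ : Set ((Lstage (lim o) : ZFSet.{u}) : Set ZFSet.{u})) ⊕ Fin 1 := fun i =>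
    if i.1 = Sum.inr 0 then Sum.inr 0 else Sum.inl ⟨⟨(w i.1).1, h2 i.1 i.2⟩, trivial⟩
  refine ⟨φ.restrictFreeVar f, ?_⟩
  ext g
  have hz : (g 0).1 ∈ L := ⟨_, (g 0).2⟩
  change (g 0).1 ∈ y ↔ _
  rw [hyP _ hz]
  let env : ℕ → (L : Set ZFSet.{u}) := fun n => Nat.casesOn n ⟨(g 0).1, hz⟩ (fun k => ⟨v k, hv k⟩)
  have h3 := Set.ext_iff.1 hφ env
  change P (g 0).1 v ↔ _ at h3
  rw [h3]
  simp only [Set.mem_ofPred_eq]
  rw [← (eemb o).map_formula]
  symm
  refine Language.BoundedFormula.realize_restrictFreeVar _ ?_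
  rintro ⟨i, hi⟩
  by_cases h0 : i = Sum.inr 0
  · subst h0
    simp only [f, if_true]
    rfl
  · simp only [f, if_neg h0]
    rcases i with i | n
    · rfl
    · cases n with
      | zero => exact (h0 rfl).elim
      | succ k => rfl

theorem LD_isOrdinal_L : LD L (fun v => (v 0).IsOrdinal) := by
  refine LD.congr (Q := fun v => (∀ y ∈ L, y ∈ v 0 → ∀ z ∈ L, z ∈ y → z ∈ v 0) ∧
    ∀ y ∈ L, y ∈ v 0 → ∀ z ∈ L, z ∈ y → ∀ w ∈ L, w ∈ z → w ∈ y) (fun v hv => ?_) ?_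
  · rw [isOrdinal_iff_forall_mem_isTransitive]
    refine and_congr ?_ ?_
    · constructor
      · intro h y _ hy z _ hz; exact h y hy hz
      · intro h y hy z hz
        exact h y (L_trans (hv 0) hy) hy z (L_trans (L_trans (hv 0) hy) hz) hz
    · constructor
      · intro h y _ hy z _ hz w _ hw; exact h y hy z hz hw
      · intro h y hy z hz w hw
        have h1 := L_trans (hv 0) hy
        have h2 := L_trans h1 hz
        exact h y h1 hy z h2 hz w (L_trans h2 hw) hw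
  · refine LD.and ?_ ?_
    · refine LD.allM (P := fun y v => y ∈ v 0 → ∀ z ∈ L, z ∈ y → z ∈ v 0) ?_
      refine (LD.mem_var 0 1).imp ?_
      refine LD.allM (P := fun z v => z ∈ v 0 → z ∈ v 1) ?_
      exact (LD.mem_var 0 1).imp (LD.mem_var 0 2)
    · refine LD.allM (P := fun y v => y ∈ v 0 → ∀ z ∈ L, z ∈ y → ∀ w ∈ L, w ∈ z → w ∈ y) ?_
      refine (LD.mem_var 0 1).imp ?_
      refine LD.allM (P := fun z v => z ∈ v 0 → ∀ w ∈ L, w ∈ z → w ∈ v 0) ?_
      refine (LD.mem_var 0 1).imp ?_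
      refine LD.allM (P := fun w v => w ∈ v 0 → w ∈ v 1) ?_
      exact (LD.mem_var 0 1).imp (LD.mem_var 0 2)

theorem ord_mem_L (o : Ordinal.{u}) : o.toZFSet ∈ L := by
  induction o using WellFoundedLT.induction with
  | _ o ih =>
    by_contra hcon
    let d : Ordinal.{u} := ⨆ c : Set.Iio o, lev ⟨(c : Ordinal.{u}).toZFSet, ih c c.2⟩
    have hd : ∀ c < o, c.toZFSet ∈ Lstage d := by
      intro c hc
      refine Lstage_mono ?_ (mem_lev ⟨c.toZFSet, ih c hc⟩)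
      exact Ordinal.le_iSup (fun c : Set.Iio o => lev ⟨(c : Ordinal.{u}).toZFSet, ih c c.2⟩) ⟨c, hc⟩
    refine hcon (L_sep (fun z v => z ∈ v 0 ∧ z.IsOrdinal) ?_ (fun _ => Lstage d)
      (fun _ => Lstage_mem_L d) _ ?_ ?_)
    · exact (LD.mem_var 0 1).and LD_isOrdinal_L
    · intro z hz
      obtain ⟨c, hc, rfl⟩ := Ordinal.mem_toZFSet_iff.1 hz
      exact ih c hc
    · intro z hz
      constructor
      · intro h
        obtain ⟨c, hc, rfl⟩ := Ordinal.mem_toZFSet_iff.1 h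
        exact ⟨hd c hc, isOrdinal_toZFSet c⟩
      · rintro ⟨_, hz2⟩
        obtain ⟨c, rfl⟩ := isOrdinal_iff_mem_range_toZFSet.1 hz2
        rw [Ordinal.toZFSet_mem_toZFSet_iff]
        by_contra hco
        rcases (not_lt.1 hco).lt_or_eq with h | h
        · exact hcon (L_trans hz (Ordinal.toZFSet_mem_toZFSet_iff.2 h))
        · rw [← h] at hz; exact hcon hz

/-- The constructible universe is a good class. -/
theorem good_L : Good (L : Set ZFSet.{u}) where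
  trans _ hx _ hy := L_trans hx hy
  sep := L_sep
  ord := ord_mem_L

end Pool.Agent.MPd14747
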