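import Pool.Agent.MPd14747.Codes3

/-! The constructible hierarchy together with injections into the ordinals lies in every good
class. -/

open FirstOrder ZFSet

universe u

namespace Pool.Agent.MPd14747

variable {M : Set ZFSet.{u}}

/-- `ζ` is a code of `b` relative to the history `h` -/
def HasCode (M : Set ZFSet.{u}) (h b ζ : ZFSet.{u}) : Prop :=
  ∃ γ ∈ dom h, γ.IsOrdinal ∧ ∃ ξ, ξ.IsOrdinal ∧ ζ = opair γ ξ ∧ b = BstT M (app h γ) ξ

def IsLeastCode (M : Set ZFSet.{u}) (h b ζ : ZFSet.{u}) : Prop :=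
  HasCode M h b ζ ∧ ∀ ζ' ∈ ζ, ¬ HasCode M h b ζ'

theorem HasCode.isOrdinal {h b ζ : ZFSet.{u}} (H : HasCode M h b ζ) : ζ.IsOrdinal := by
  obtain ⟨γ, _, hγ, ξ, hξ, rfl, _⟩ := H
  rw [← hγ.toZFSet_rank_eq, ← hξ.toZFSet_rank_eq, opair_toZFSet]
  exact isOrdinal_toZFSet _

theorem HasCode.inj {h b b' ζ : ZFSet.{u}} (H : HasCode M h b ζ) (H' : HasCode M h b' ζ) :
    b = b' := by
  obtain ⟨γ, _, hγ, ξ, hξ, rfl, rfl⟩ := H
  obtain ⟨γ', _, hγ', ξ', hξ', e, rfl⟩ := H'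
  obtain ⟨γ, rfl⟩ := isOrdinal_iff_mem_range_toZFSet.1 hγ
  obtain ⟨γ', rfl⟩ := isOrdinal_iff_mem_range_toZFSet.1 hγ'
  obtain ⟨ξ, rfl⟩ := isOrdinal_iff_mem_range_toZFSet.1 hξ
  obtain ⟨ξ', rfl⟩ := isOrdinal_iff_mem_range_toZFSet.1 hξ'
  rw [opair_toZFSet, opair_toZFSet] at e
  obtain ⟨rfl, rfl⟩ := opr_inj (Ordinal.toZFSet_injective e)
  rfl

noncomputable def leastCode (M : Set ZFSet.{u}) (h b : ZFSet.{u}) : ZFSet.{u} :=
  (sInf {o : Ordinal.{u} | HasCode M h b o.toZFSet}).toZFSet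

theorem isLeastCode_leastCode {h b : ZFSet.{u}} (H : ∃ ζ, HasCode M h b ζ) :
    IsLeastCode M h b (leastCode M h b) := by
  obtain ⟨ζ, hζ⟩ := H
  obtain ⟨o, rfl⟩ := isOrdinal_iff_mem_range_toZFSet.1 hζ.isOrdinal
  have hne : {o : Ordinal.{u} | HasCode M h b o.toZFSet}.Nonempty := ⟨o, hζ⟩
  refine ⟨csInf_mem hne, fun ζ' hζ' H => ?_⟩
  obtain ⟨c, hc, rfl⟩ := Ordinal.mem_toZFSet_iff.1 hζ'
  exact notMem_of_lt_csInf' hc H

theorem IsLeastCode.eq {h b ζ : ZFSet.{u}} (H : IsLeastCode M h b ζ) :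
    ζ = leastCode M h b := by
  have H' := isLeastCode_leastCode ⟨ζ, H.1⟩
  rcases H.1.isOrdinal.mem_trichotomous H'.1.isOrdinal with h1 | h1 | h1
  · exact (H'.2 _ h1 H.1).elim
  · exact h1
  · exact (H.2 _ h1 H'.1).elim

noncomputable def stepSet (M : Set ZFSet.{u}) (h : ZFSet.{u}) : ZFSet.{u} :=
  (sUnion (img (dom h) (fun γ => powerset (dom (app h γ))))).sep (fun b => ∃ ζ, HasCode M h b ζ)

theorem mem_stepSet {h b : ZFSet.{u}} : b ∈ stepSet M h ↔ ∃ ζ, HasCode M h b ζ := by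
  rw [stepSet, mem_sep, and_iff_right_iff_imp]
  rintro ⟨ζ, γ, hγ, _, ξ, _, _, rfl⟩
  rw [mem_sUnion]
  refine ⟨_, mem_img.2 ⟨γ, hγ, rfl⟩, ?_⟩
  rw [mem_powerset]
  exact sep_subset

noncomputable def stG (M : Set ZFSet.{u}) (_p h : ZFSet.{u}) : ZFSet.{u} :=
  img (stepSet M h) (fun b => pair b (leastCode M h b))

theorem mem_stG {p h z : ZFSet.{u}} :
    z ∈ stG M p h ↔ ∃ b ζ, z = pair b ζ ∧ IsLeastCode M h b ζ := by
  rw [stG, mem_img]
  constructor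
  · rintro ⟨b, hb, rfl⟩
    exact ⟨b, _, rfl, isLeastCode_leastCode (mem_stepSet.1 hb)⟩
  · rintro ⟨b, ζ, rfl, H⟩
    exact ⟨b, mem_stepSet.2 ⟨ζ, H.1⟩, by rw [H.eq]⟩

theorem pair_mem_stG {p h b ζ : ZFSet.{u}} :
    pair b ζ ∈ stG M p h ↔ IsLeastCode M h b ζ := by
  rw [mem_stG]
  constructor
  · rintro ⟨b', ζ', e, H⟩
    obtain ⟨rfl, rfl⟩ := pair_inj.1 e
    exact H
  · intro H; exact ⟨b, ζ, rfl, H⟩

section good
variable (hM : Good M)
include hM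

theorem Good.ord_mem {x : ZFSet.{u}} (hx : x.IsOrdinal) : x ∈ M := by
  obtain ⟨o, rfl⟩ := isOrdinal_iff_mem_range_toZFSet.1 hx
  exact hM.ord o

theorem LD.hasCode : LD M (fun v => HasCode M (v 0) (v 1) (v 2)) := by
  refine LD.bex hM (P := fun γ v => γ.IsOrdinal ∧ ∃ ξ, ξ.IsOrdinal ∧ v 2 = opair γ ξ ∧
    v 1 = BstT M (app (v 0) γ) ξ) (LF.dom hM (LF.var 0)) ?_
  refine (LD.isOrdinal hM (LF.var 0)).and ?_
  refine LD.congr (Q := fun v => ∃ ξ ∈ M, ξ.IsOrdinal ∧ v 3 = opair (v 0) ξ ∧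
    v 2 = BstT M (app (v 1) (v 0)) ξ) (fun v hv => ?_) ?_
  · constructor
    · rintro ⟨ξ, h1, h2, h3⟩
      exact ⟨ξ, hM.ord_mem h1, h1, h2, h3⟩
    · rintro ⟨ξ, _, h1, h2, h3⟩
      exact ⟨ξ, h1, h2, h3⟩
  · refine LD.exM (P := fun ξ v => ξ.IsOrdinal ∧ v 3 = opair (v 0) ξ ∧
      v 2 = BstT M (app (v 1) (v 0)) ξ) ?_
    refine (LD.isOrdinal hM (LF.var 0)).and ((LD.eq (LF.var 4)
      (LF.opair hM (LF.var 1) (LF.var 0))).and ?_)
    exact LD.eq (LF.var 3) (LF.BstT hM (LF.app hM (LF.var 2) (LF.var 1)) (LF.var 0))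

theorem LD.isLeastCode : LD M (fun v => IsLeastCode M (v 0) (v 1) (v 2)) := by
  refine (LD.hasCode hM).and ?_
  refine LD.ball hM (P := fun ζ' v => ¬ HasCode M (v 0) (v 1) ζ') (LF.var 2) ?_
  exact (LD.comp3 (P := HasCode M) (LD.hasCode hM) (LF.var 1) (LF.var 2) (LF.var 0)).not

theorem LF.stG : LF M (fun v => stG M (v 0) (v 1)) := by
  refine LF.of_mem hM ?_ ?_
  · intro v hv z hz
    obtain ⟨b, ζ, rfl, H⟩ := mem_stG.1 hz
    refine hM.pair_mem ?_ (hM.ord_mem H.1.isOrdinal)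
    obtain ⟨γ, hγ, hγo, ξ, hξ, _, rfl⟩ := H.1
    exact (LF.BstT hM (LF.app hM (LF.var 1) (LF.const (hM.ord_mem hγo)))
      (LF.const (hM.ord_mem hξ))).1 v hv
  · refine LD.congr (Q := fun v => ∃ b ∈ M, ∃ ζ ∈ M, v 0 = ZFSet.pair b ζ ∧
      IsLeastCode M (v 2) b ζ) (fun v hv => ?_) ?_
    · rw [mem_stG]
      constructor
      · rintro ⟨b, ζ, e, H⟩
        have : ZFSet.pair b ζ ∈ M := e ▸ hv 0
        exact ⟨b, hM.of_pair_left this, ζ, hM.of_pair_right this, e, H⟩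
      · rintro ⟨b, _, ζ, _, e, H⟩
        exact ⟨b, ζ, e, H⟩
    · refine LD.exM (P := fun b v => ∃ ζ ∈ M, v 0 = ZFSet.pair b ζ ∧
        IsLeastCode M (v 2) b ζ) ?_
      refine LD.exM (P := fun ζ v => v 1 = ZFSet.pair (v 0) ζ ∧
        IsLeastCode M (v 3) (v 0) ζ) ?_
      refine (LD.eq (LF.var 2) (LF.pair hM (LF.var 1) (LF.var 0))).and ?_
      exact LD.comp3 (P := IsLeastCode M) (LD.isLeastCode hM) (LF.var 4) (LF.var 1) (LF.var 0)

end good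

theorem mem_Lstage {o : Ordinal.{u}} {x : ZFSet.{u}} :
    x ∈ Lstage o ↔ ∃ c < o, x ∈ defPow (Lstage c) := by
  rw [Lstage, mem_iUnion]
  simp

/-- stage functions -/
noncomputable def stF (M : Set ZFSet.{u}) (o : Ordinal.{u}) : ZFSet.{u} := recF (stG M) ∅ o

theorem Good.stF_mem (hM : Good M) (o : Ordinal.{u}) : stF M o ∈ M :=
  hM.recF_mem (stG M) (LF.stG hM) hM.empty_mem o

theorem stF_spec (hM : Good M) (o : Ordinal.{u}) :
    IsCodeFn (stF M o) ∧ dom (stF M o) = Lstage o := by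
  induction o using WellFoundedLT.induction with
  | _ o ih =>
    have hdom : ∀ b, b ∈ dom (stF M o) ↔ ∃ ζ, HasCode M (recH (stG M) ∅ o) b ζ := by
      intro b
      rw [stF, recF_eq, mem_dom]
      constructor
      · rintro ⟨ζ, hζ⟩; exact ⟨ζ, (pair_mem_stG.1 hζ).1⟩
      · intro H; exact ⟨_, pair_mem_stG.2 (isLeastCode_leastCode H)⟩
    have happ : ∀ b ∈ dom (stF M o),
        IsLeastCode M (recH (stG M) ∅ o) b (app (stF M o) b) := by
      intro b hb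
      obtain H := (hdom b).1 hb
      have h1 := isLeastCode_leastCode H
      have h2 : app (stF M o) b = leastCode M (recH (stG M) ∅ o) b := by
        rw [stF, recF_eq]
        refine app_eq (pair_mem_stG.2 h1) fun y' hy' => (pair_mem_stG.1 hy').eq
      rw [h2]
      exact h1
    refine ⟨⟨fun a ha => (happ a ha).1.isOrdinal, fun a ha b hb e => ?_⟩, ?_⟩
    · have h1 := (happ a ha).1
      have h2 := (happ b hb).1
      rw [← e] at h2
      exact h1.inj h2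
    · ext b
      rw [hdom, mem_Lstage]
      constructor
      · rintro ⟨ζ, γ, hγ, _, ξ, hξ, _, rfl⟩
        rw [dom_recH, Ordinal.mem_toZFSet_iff] at hγ
        obtain ⟨c, hc, rfl⟩ := hγ
        refine ⟨c, hc, ?_⟩
        rw [app_recH _ hc]
        obtain ⟨h1, h2⟩ := ih c hc
        obtain ⟨ξ, rfl⟩ := isOrdinal_iff_mem_range_toZFSet.1 hξ
        rw [← h2]
        exact (mem_defPow_iff hM h1 (hM.stF_mem c) _).2 ⟨ξ, rfl⟩
      · rintro ⟨c, hc, hb⟩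
        obtain ⟨h1, h2⟩ := ih c hc
        rw [← h2, mem_defPow_iff hM h1 (hM.stF_mem c)] at hb
        obtain ⟨ξ, rfl⟩ := hb
        refine ⟨opair c.toZFSet ξ.toZFSet, c.toZFSet, ?_, isOrdinal_toZFSet _, ξ.toZFSet,
          isOrdinal_toZFSet _, rfl, ?_⟩
        · rw [dom_recH]; exact Ordinal.toZFSet_mem_toZFSet_iff.2 hc
        · rw [app_recH _ hc]; rfl

/-- `L` is contained in every good class. -/
theorem Good.L_subset (hM : Good M) : L ⊆ M := by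
  rintro x ⟨o, hx⟩
  obtain ⟨_, h2⟩ := stF_spec hM o
  have : Lstage o ∈ M := by
    rw [← h2]
    exact (LF.dom hM (LF.const (hM.stF_mem o))).1 (fun _ => ∅) (fun _ => hM.empty_mem)
  exact hM.trans _ this _ hx

end Pool.Agent.MPd14747
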